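import Mathlib

/-!
Counting part for the layered random construction (no subgraph with all degrees in `[3,M]`).
-/

namespace Run7.h357.Sauer

open Finset

/-- functions for which the values on `V` are already attained on `R` -/
def TR {n N : ℕ} (V R : Finset (Fin n)) : Finset (Fin n → Fin N) :=
  Finset.univ.filter (fun g => ∀ v ∈ V, ∃ w ∈ R, g v = g w)

lemma card_TR_le {n N : ℕ} (V R : Finset (Fin n)) (hR : R ⊆ V) :
    (TR (N := N) V R).card ≤ N ^ (n - (V.card - R.card)) * R.card ^ (V.card - R.card) := by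
  classical
  let W := V \ R
  have hW : W.card = V.card - R.card := Finset.card_sdiff_of_subset hR
  let Φ : (({v // v ∉ W} → Fin N) × ({v // v ∈ W} → {v // v ∈ R})) → (Fin n → Fin N) :=
    fun p v => if h : v ∈ W then p.1 ⟨(p.2 ⟨v, h⟩).1, by
      have := (p.2 ⟨v, h⟩).2
      simp [W, this]⟩ else p.1 ⟨v, h⟩
  have hsub : TR (N := N) V R ⊆ Finset.univ.image Φ := by
    intro g hg
    simp only [TR, Finset.mem_filter, Finset.mem_univ, true_and] at hg
    simp only [Finset.mem_image, Finset.mem_univ, true_and]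
    have hc : ∀ v : {v // v ∈ W}, ∃ w : {v // v ∈ R}, g v.1 = g w.1 := by
      intro v
      have hv : v.1 ∈ V := by
        have := v.2
        simp only [W, Finset.mem_sdiff] at this
        exact this.1
      obtain ⟨w, hw, h⟩ := hg v.1 hv
      exact ⟨⟨w, hw⟩, h⟩
    choose c hc using hc
    refine ⟨(fun v => g v.1, c), ?_⟩
    funext v
    simp only [Φ]
    split_ifs with h
    · exact (hc ⟨v, h⟩).symm
    · rfl
  refine (Finset.card_le_card hsub).trans (Finset.card_image_le.trans ?_)
  rw [Finset.card_univ, Fintype.card_prod, Fintype.card_fun, Fintype.card_fun, Fintype.card_fin]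
  have h1 : Fintype.card {v // v ∉ W} = n - W.card := by
    rw [Fintype.card_subtype_compl, Fintype.card_fin, Fintype.card_coe]
  rw [h1, Fintype.card_coe, Fintype.card_coe, hW]

/-- functions all of whose nonempty fibres inside `V` have size at least `3` -/
def Fib3 {n N : ℕ} (V : Finset (Fin n)) : Finset (Fin n → Fin N) :=
  Finset.univ.filter (fun g => ∀ v ∈ V, 3 ≤ (V.filter (fun w => g w = g v)).card)

lemma card_Fib3_le {n N : ℕ} (V : Finset (Fin n)) (x : ℝ) (hx0 : 0 ≤ x) (hx1 : x ≤ 1)
    (hN : 0 < N) (hV : (V.card : ℝ) ≤ N * x ^ 3) :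
    ((Fib3 (N := N) V).card : ℝ) ≤ (N : ℝ) ^ n * (2 ^ V.card * x ^ (2 * V.card)) := by
  classical
  have hsub : Fib3 (N := N) V ⊆
      (V.powerset.filter (fun R => 3 * R.card ≤ V.card)).biUnion (fun R => TR (N := N) V R) := by
    intro g hg
    simp only [Fib3, Finset.mem_filter, Finset.mem_univ, true_and] at hg
    simp only [Finset.mem_biUnion, Finset.mem_filter, Finset.mem_powerset]
    -- choose a representative of each value
    have hrep : ∀ a : {a // a ∈ V.image g}, ∃ v ∈ V, g v = a.1 := by
      intro a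
      obtain ⟨v, hv, h⟩ := Finset.mem_image.1 a.2
      exact ⟨v, hv, h⟩
    choose r hrV hr using hrep
    refine ⟨Finset.univ.image r, ⟨?_, ?_⟩, ?_⟩
    · intro v hv
      obtain ⟨a, _, rfl⟩ := Finset.mem_image.1 hv
      exact hrV a
    · have h1 : (Finset.univ.image r).card ≤ (V.image g).card := by
        refine Finset.card_image_le.trans ?_
        rw [Finset.card_univ, Fintype.card_coe]
      have h2 : (V.image g).card * 3 ≤ V.card := by
        have := Finset.mul_card_image_le_card (s := V) (f := g) 3 (by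
          intro b hb
          obtain ⟨v, hv, rfl⟩ := Finset.mem_image.1 hb
          exact hg v hv)
        omega
      omega
    · simp only [TR, Finset.mem_filter, Finset.mem_univ, true_and]
      intro v hv
      have hm : g v ∈ V.image g := Finset.mem_image_of_mem g hv
      exact ⟨r ⟨g v, hm⟩, Finset.mem_image_of_mem _ (Finset.mem_univ _), (hr ⟨g v, hm⟩).symm⟩
  have hN' : (0 : ℝ) < N := by exact_mod_cast hN
  have hVn : V.card ≤ n := by simpa using Finset.card_le_univ V
  have hbound : ∀ R ∈ V.powerset.filter (fun R => 3 * R.card ≤ V.card),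
      ((TR (N := N) V R).card : ℝ) ≤ (N : ℝ) ^ n * x ^ (2 * V.card) := by
    intro R hR
    simp only [Finset.mem_filter, Finset.mem_powerset] at hR
    obtain ⟨hRV, hR3⟩ := hR
    have h1 := card_TR_le (N := N) V R hRV
    have hcard : R.card ≤ V.card := Finset.card_le_card hRV
    set d := V.card - R.card with hd
    have h2 : ((TR (N := N) V R).card : ℝ) ≤ (N : ℝ) ^ (n - d) * (R.card : ℝ) ^ d := by
      exact_mod_cast h1
    have hRN : (R.card : ℝ) ≤ N * x ^ 3 := by
      have : (R.card : ℝ) ≤ V.card := by exact_mod_cast hcard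
      linarith
    have h3 : (R.card : ℝ) ^ d ≤ (N * x ^ 3) ^ d :=
      pow_le_pow_left₀ (by positivity) hRN d
    have h4 : (N : ℝ) ^ (n - d) * (N * x ^ 3) ^ d = (N : ℝ) ^ n * x ^ (3 * d) := by
      rw [mul_pow, ← mul_assoc, ← pow_add, ← pow_mul]
      congr 2
      omega
    have h5 : x ^ (3 * d) ≤ x ^ (2 * V.card) := pow_le_pow_of_le_one hx0 hx1 (by omega)
    calc ((TR (N := N) V R).card : ℝ) ≤ (N : ℝ) ^ (n - d) * (R.card : ℝ) ^ d := h2
      _ ≤ (N : ℝ) ^ (n - d) * (N * x ^ 3) ^ d := by gcongr
      _ = (N : ℝ) ^ n * x ^ (3 * d) := h4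
      _ ≤ (N : ℝ) ^ n * x ^ (2 * V.card) := by gcongr
  have h6 : ((Fib3 (N := N) V).card : ℝ) ≤
      ∑ R ∈ V.powerset.filter (fun R => 3 * R.card ≤ V.card), ((TR (N := N) V R).card : ℝ) := by
    have := (Finset.card_le_card hsub).trans Finset.card_biUnion_le
    exact_mod_cast this
  refine h6.trans ((Finset.sum_le_card_nsmul _ _ _ hbound).trans ?_)
  rw [nsmul_eq_mul]
  have h7 : ((V.powerset.filter (fun R => 3 * R.card ≤ V.card)).card : ℝ) ≤ 2 ^ V.card := by
    have := (Finset.card_filter_le V.powerset (fun R => 3 * R.card ≤ V.card))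
    rw [Finset.card_powerset] at this
    exact_mod_cast this
  calc ((V.powerset.filter (fun R => 3 * R.card ≤ V.card)).card : ℝ) *
        ((N : ℝ) ^ n * x ^ (2 * V.card)) ≤ 2 ^ V.card * ((N : ℝ) ^ n * x ^ (2 * V.card)) := by
        gcongr
    _ = (N : ℝ) ^ n * (2 ^ V.card * x ^ (2 * V.card)) := by ring

end Run7.h357.Sauer
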