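import Mathlib
import Pool.Agent.Run7.h357.SauerA

/-!
The union bound: a random layered choice has no subgraph with all degrees in `[3,M]`.
-/

namespace Run7.h357.Sauer

open Finset

/-- layer sizes: `N' s t i = n / D_i` with `D_i = s^(24*8^i)`, `n = s^(24*8^t)` -/
def NN (s t i : ℕ) : ℕ := s ^ (24 * 8 ^ t - 24 * 8 ^ i)

def nn (s t : ℕ) : ℕ := s ^ (24 * 8 ^ t)

lemma NN_pos {s t i : ℕ} (hs : 0 < s) : 0 < NN s t i := Nat.pow_pos hs

lemma nn_pos {s t : ℕ} (hs : 0 < s) : 0 < nn s t := Nat.pow_pos hs

lemma NN_mul {s t i : ℕ} (hi : i ≤ t) : NN s t i * s ^ (24 * 8 ^ i) = nn s t := by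
  unfold NN nn
  rw [← pow_add]
  congr 1
  have : 8 ^ i ≤ 8 ^ t := Nat.pow_le_pow_right (by norm_num) hi
  omega

lemma NN_anti {s t i j : ℕ} (hs : 0 < s) (hij : i ≤ j) : NN s t j ≤ NN s t i := by
  unfold NN
  apply Nat.pow_le_pow_right hs
  have : 8 ^ i ≤ 8 ^ j := Nat.pow_le_pow_right (by norm_num) hij
  omega

variable {n t : ℕ}

/-- the vertices using layer `i` -/
def VV (S : Fin n → Finset (Fin t)) (i : Fin t) : Finset (Fin n) :=
  Finset.univ.filter (fun v => i ∈ S v)

/-- the vertices using some layer -/
def supp (S : Fin n → Finset (Fin t)) : Finset (Fin n) :=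
  Finset.univ.filter (fun v => (S v).Nonempty)

lemma sum_card_VV (S : Fin n → Finset (Fin t)) (L : Finset (Fin t)) :
    ∑ i ∈ L, (VV S i).card = ∑ v ∈ supp S, (L.filter (fun i => i ∈ S v)).card := by
  classical
  have h1 : ∑ i ∈ L, (VV S i).card = ∑ v : Fin n, (L.filter (fun i => i ∈ S v)).card := by
    simp only [VV, Finset.card_filter]
    rw [Finset.sum_comm]
  rw [h1]
  symm
  apply Finset.sum_subset (Finset.subset_univ _)
  intro v _ hv
  simp only [supp, Finset.mem_filter, Finset.mem_univ, true_and,
    Finset.not_nonempty_iff_eq_empty] at hv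
  simp [hv]

lemma VV_card_le_supp (S : Fin n → Finset (Fin t)) (i : Fin t) :
    (VV S i).card ≤ (supp S).card := by
  apply Finset.card_le_card
  intro v hv
  simp only [VV, supp, Finset.mem_filter, Finset.mem_univ, true_and] at hv ⊢
  exact ⟨i, hv⟩

/-- the counting of the patterns with support of size `b` -/
lemma card_patterns (b : ℕ) :
    ((Finset.univ : Finset (Fin n → Finset (Fin t))).filter (fun S => (supp S).card = b)).card ≤
      n.choose b * (2 ^ t) ^ b := by
  classical
  have hsub : (Finset.univ : Finset (Fin n → Finset (Fin t))).filter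
      (fun S => (supp S).card = b) ⊆
      (Finset.powersetCard b (Finset.univ : Finset (Fin n))).biUnion
        (fun B => Fintype.piFinset (fun v => if v ∈ B then (Finset.univ : Finset (Finset (Fin t)))
          else {∅})) := by
    intro S hS
    simp only [Finset.mem_filter, Finset.mem_univ, true_and] at hS
    simp only [Finset.mem_biUnion, Finset.mem_powersetCard, Fintype.mem_piFinset]
    refine ⟨supp S, ⟨Finset.subset_univ _, hS⟩, ?_⟩
    intro v
    split_ifs with h
    · exact Finset.mem_univ _
    · simp only [supp, Finset.mem_filter, Finset.mem_univ, true_and,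
        Finset.not_nonempty_iff_eq_empty] at h
      simp [h]
  refine (Finset.card_le_card hsub).trans (Finset.card_biUnion_le.trans ?_)
  have hB : ∀ B ∈ Finset.powersetCard b (Finset.univ : Finset (Fin n)),
      (Fintype.piFinset (fun v => if v ∈ B then (Finset.univ : Finset (Finset (Fin t)))
          else {∅})).card = (2 ^ t) ^ b := by
    intro B hB
    rw [Finset.mem_powersetCard] at hB
    rw [Fintype.card_piFinset]
    have : ∀ v : Fin n, (if v ∈ B then (Finset.univ : Finset (Finset (Fin t))) else {∅}).card =
        if v ∈ B then 2 ^ t else 1 := by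
      intro v
      split_ifs
      · simp
      · simp
    rw [Finset.prod_congr rfl (fun v _ => this v), Finset.prod_ite_mem]
    simp [hB.2]
  rw [Finset.sum_congr rfl hB]
  simp

lemma choose_bound (n b : ℕ) (hb : 0 < b) :
    ((n.choose b : ℕ) : ℝ) ≤ (3 * ((n : ℝ) / b)) ^ b := by
  have h1 : ((n.choose b : ℕ) : ℝ) ≤ (n : ℝ) ^ b / (b.factorial : ℝ) :=
    Nat.choose_le_pow_div b n
  have h2 : (b : ℝ) ^ b / (b.factorial : ℝ) ≤ Real.exp b :=
    Real.pow_div_factorial_le_exp (b : ℝ) (by positivity) b
  have h3 : Real.exp b ≤ 3 ^ b := by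
    have : Real.exp (b : ℝ) = (Real.exp 1) ^ b := by
      rw [← Real.exp_nat_mul]; simp
    rw [this]
    exact pow_le_pow_left₀ (Real.exp_pos 1).le
      (by have := Real.exp_one_lt_d9; linarith) b
  have hb' : (0 : ℝ) < b := by exact_mod_cast hb
  calc ((n.choose b : ℕ) : ℝ) ≤ (n : ℝ) ^ b / (b.factorial : ℝ) := h1
    _ = ((n : ℝ) / b) ^ b * ((b : ℝ) ^ b / (b.factorial : ℝ)) := by
        rw [div_pow]
        field_simp
    _ ≤ ((n : ℝ) / b) ^ b * 3 ^ b := by
        gcongr
        exact h2.trans h3
    _ = (3 * ((n : ℝ) / b)) ^ b := by rw [mul_pow]; ring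

/-- numerical properties of the patterns that can occur -/
structure Feas (s t M : ℕ) (S : Fin (nn s t) → Finset (Fin t)) : Prop where
  ne : (supp S).Nonempty
  three : ∀ v, (S v).Nonempty → 3 ≤ (S v).card
  cap : ∀ i, (VV S i).card ≤ M * NN s t i.val

section

variable {s M : ℕ}

lemma feas_small (hs : 0 < s) (ht : 0 < t) (hsM : t * M ≤ s ^ 24)
    {S : Fin (nn s t) → Finset (Fin t)} (hS : Feas s t M S) :
    (supp S).card * s ^ 168 ≤ nn s t := by
  classical
  -- each vertex of the support uses a layer of index at least one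
  have h1 : (supp S).card ≤ ∑ i ∈ Finset.univ.filter (fun i : Fin t => 1 ≤ i.val),
      (VV S i).card := by
    rw [sum_card_VV, Finset.card_eq_sum_ones]
    apply Finset.sum_le_sum
    intro v hv
    simp only [supp, Finset.mem_filter, Finset.mem_univ, true_and] at hv
    have h3 := hS.three v hv
    rw [Nat.one_le_iff_ne_zero, ← Nat.pos_iff_ne_zero, Finset.card_pos]
    by_contra hcon
    rw [Finset.not_nonempty_iff_eq_empty, Finset.filter_eq_empty_iff] at hcon
    have : (S v).card ≤ 1 := by
      rw [Finset.card_le_one]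
      intro a ha b hb
      have ha' : ¬ 1 ≤ a.val := by
        intro h
        exact hcon (by simp [h]) ha
      have hb' : ¬ 1 ≤ b.val := by
        intro h
        exact hcon (by simp [h]) hb
      apply Fin.ext
      omega
    omega
  have h2 : ∑ i ∈ Finset.univ.filter (fun i : Fin t => 1 ≤ i.val), (VV S i).card ≤
      t * (M * NN s t 1) := by
    refine (Finset.sum_le_card_nsmul _ _ (M * NN s t 1) ?_).trans ?_
    · intro i hi
      simp only [Finset.mem_filter, Finset.mem_univ, true_and] at hi
      exact (hS.cap i).trans (Nat.mul_le_mul_left _ (NN_anti hs hi))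
    · rw [smul_eq_mul]
      apply Nat.mul_le_mul_right
      refine (Finset.card_filter_le _ _).trans ?_
      simp
  have h3 : NN s t 1 * s ^ 192 = nn s t := by
    have := NN_mul (s := s) (t := t) (i := 1) ht
    simpa using this
  calc (supp S).card * s ^ 168 ≤ (t * (M * NN s t 1)) * s ^ 168 :=
        Nat.mul_le_mul_right _ (h1.trans h2)
    _ = (t * M) * (NN s t 1 * s ^ 168) := by ring
    _ ≤ s ^ 24 * (NN s t 1 * s ^ 168) := Nat.mul_le_mul_right _ hsM
    _ = NN s t 1 * s ^ 192 := by ring
    _ = nn s t := h3

/-- the low layers (for support size `b`) -/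
def low (s t b : ℕ) : Finset (Fin t) :=
  Finset.univ.filter (fun i => b ≤ s ^ 24 * NN s t (i.val + 1))

/-- the high layers -/
def high (s t b : ℕ) : Finset (Fin t) :=
  Finset.univ.filter (fun i => s ^ 24 * NN s t i.val < b)

lemma feas_low (hs : 0 < s) (ht : 0 < t) (hsM : 28 * (t * M) ≤ s ^ 24)
    {S : Fin (nn s t) → Finset (Fin t)} (hS : Feas s t M S) :
    27 * (supp S).card ≤ 14 * ∑ i ∈ low s t (supp S).card, (VV S i).card := by
  classical
  set b := (supp S).card with hb
  -- bad vertices
  have hbad : 28 * ∑ i ∈ high s t b, (VV S i).card ≤ b := by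
    have h1 : ∀ i ∈ high s t b, t * (28 * (VV S i).card) ≤ b := by
      intro i hi
      simp only [high, Finset.mem_filter, Finset.mem_univ, true_and] at hi
      calc t * (28 * (VV S i).card) ≤ t * (28 * (M * NN s t i.val)) :=
            Nat.mul_le_mul_left _ (Nat.mul_le_mul_left _ (hS.cap i))
        _ = (28 * (t * M)) * NN s t i.val := by ring
        _ ≤ s ^ 24 * NN s t i.val := Nat.mul_le_mul_right _ hsM
        _ ≤ b := hi.le
    have h2 : ∑ i ∈ high s t b, t * (28 * (VV S i).card) ≤ t * b := by
      refine (Finset.sum_le_card_nsmul _ _ b h1).trans ?_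
      rw [smul_eq_mul]
      apply Nat.mul_le_mul_right
      refine (Finset.card_filter_le _ _).trans ?_
      simp
    rw [← Finset.mul_sum, ← Finset.mul_sum] at h2
    exact Nat.le_of_mul_le_mul_left h2 ht
  -- each vertex: #low ≥ 2 - 2 * #high
  have hv : ∀ v ∈ supp S, 2 ≤ ((low s t b).filter (fun i => i ∈ S v)).card +
      2 * ((high s t b).filter (fun i => i ∈ S v)).card := by
    intro v hv
    simp only [supp, Finset.mem_filter, Finset.mem_univ, true_and] at hv
    have h3 := hS.three v hv
    by_cases hh : ((high s t b).filter (fun i => i ∈ S v)).Nonempty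
    · have := Finset.card_pos.2 hh
      omega
    · rw [Finset.not_nonempty_iff_eq_empty, Finset.filter_eq_empty_iff] at hh
      -- at most one non-low element of `S v`
      have hmid : ((S v).filter (fun i => i ∉ low s t b)).card ≤ 1 := by
        rw [Finset.card_le_one]
        intro i hi j hj
        simp only [Finset.mem_filter] at hi hj
        have hi1 : i ∉ high s t b := fun h => hh h hi.1
        have hj1 : j ∉ high s t b := fun h => hh h hj.1
        have hi2 := hi.2
        have hj2 := hj.2
        simp only [low, high, Finset.mem_filter, Finset.mem_univ, true_and, not_le, not_lt]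
          at hi1 hj1 hi2 hj2
        by_contra hne
        have hne' : i.val ≠ j.val := fun h => hne (Fin.ext h)
        rcases lt_or_gt_of_ne hne' with hlt | hlt
        · have := Nat.mul_le_mul_left (s ^ 24) (NN_anti (s := s) (t := t) hs
            (show i.val + 1 ≤ j.val from hlt))
          omega
        · have := Nat.mul_le_mul_left (s ^ 24) (NN_anti (s := s) (t := t) hs
            (show j.val + 1 ≤ i.val from hlt))
          omega
      have hsplit := Finset.card_filter_add_card_filter_not (s := S v) (fun i => i ∈ low s t b)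
      have heq : (low s t b).filter (fun i => i ∈ S v) = (S v).filter (fun i => i ∈ low s t b) := by
        ext i
        simp [and_comm]
      rw [heq]
      omega
  have hsum := Finset.sum_le_sum hv
  rw [Finset.sum_add_distrib, ← Finset.mul_sum, ← sum_card_VV, ← sum_card_VV] at hsum
  simp only [Finset.sum_const, smul_eq_mul] at hsum
  rw [← hb] at hsum
  omega

end

end Run7.h357.Sauer
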