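import Mathlib
import Pool.Agent.Run7.h357.SauerB

/-!
Existence of a good layered choice.
-/

namespace Run7.h357.Sauer

open Finset

section

variable {s t M : ℕ}

/-- choices compatible with the pattern `S` -/
def compat (s t : ℕ) (S : Fin (nn s t) → Finset (Fin t)) :
    Finset ((i : Fin t) → (Fin (nn s t) → Fin (NN s t i.val))) :=
  Fintype.piFinset (fun i => Fib3 (N := NN s t i.val) (VV S i))

lemma card_all : Fintype.card ((i : Fin t) → (Fin (nn s t) → Fin (NN s t i.val))) =
    ∏ i : Fin t, (NN s t i.val) ^ (nn s t) := by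
  classical
  rw [Fintype.card_pi]
  apply Finset.prod_congr rfl
  intro i _
  rw [Fintype.card_fun, Fintype.card_fin, Fintype.card_fin]

lemma card_compat_le (hs : 0 < s) (ht : 0 < t) (hsM : 28 * (t * M) ≤ s ^ 24)
    {S : Fin (nn s t) → Finset (Fin t)} (hS : Feas s t M S) (z : ℝ) (hz0 : 0 ≤ z)
    (hz : z ^ 24 * nn s t = (supp S).card) :
    ((compat s t S).card : ℝ) ≤
      (∏ i : Fin t, ((NN s t i.val : ℕ) : ℝ) ^ (nn s t)) *
        (2 ^ t * ((s : ℝ) ^ 4 * z ^ 27)) ^ (supp S).card ∧ (s : ℝ) ^ 7 * z ≤ 1 := by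
  classical
  set b := (supp S).card with hb
  have hs' : (1 : ℝ) ≤ s := by exact_mod_cast hs
  have hnn : (0 : ℝ) < nn s t := by exact_mod_cast nn_pos hs
  -- `s^7 z ≤ 1`
  have hsz : (s : ℝ) ^ 7 * z ≤ 1 := by
    have h1 := feas_small hs ht (by omega) hS
    have h2 : ((b : ℕ) : ℝ) * (s : ℝ) ^ 168 ≤ nn s t := by
      rw [hb]; exact_mod_cast h1
    rw [← hz] at h2
    have h3 : ((s : ℝ) ^ 7 * z) ^ 24 ≤ 1 := by
      have h4 : ((s : ℝ) ^ 7 * z) ^ 24 * nn s t ≤ 1 * nn s t := by
        calc ((s : ℝ) ^ 7 * z) ^ 24 * (nn s t : ℝ) = z ^ 24 * (nn s t : ℝ) * (s : ℝ) ^ 168 := by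
              ring
          _ ≤ (nn s t : ℝ) := h2
          _ = 1 * (nn s t : ℝ) := by ring
      exact le_of_mul_le_mul_right h4 hnn
    by_contra hcon
    push Not at hcon
    have := one_lt_pow₀ hcon (n := 24) (by norm_num)
    linarith
  have hz1 : z ≤ 1 := by
    have : z ≤ (s : ℝ) ^ 7 * z := by
      have : (1 : ℝ) ≤ (s : ℝ) ^ 7 := one_le_pow₀ hs'
      nlinarith
    linarith
  set x : ℝ := s * z ^ 7 with hx
  have hx0 : 0 ≤ x := by positivity
  have hx1 : x ≤ 1 := by
    have h1 : (s : ℝ) * z ≤ 1 := by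
      have : (s : ℝ) * z ≤ (s : ℝ) ^ 7 * z := by
        have : (s : ℝ) ≤ (s : ℝ) ^ 7 := by
          calc (s : ℝ) = (s : ℝ) ^ 1 := by ring
            _ ≤ (s : ℝ) ^ 7 := pow_le_pow_right₀ hs' (by norm_num)
        nlinarith
      linarith
    calc x = (s * z) * z ^ 6 := by rw [hx]; ring
      _ ≤ 1 * 1 := by
          apply mul_le_mul h1 (pow_le_one₀ hz0 hz1) (by positivity) (by norm_num)
      _ = 1 := by ring
  refine ⟨?_, hsz⟩
  -- each layer
  have hlayer : ∀ i : Fin t, ((Fib3 (N := NN s t i.val) (VV S i)).card : ℝ) ≤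
      ((NN s t i.val : ℕ) : ℝ) ^ (nn s t) *
        (if i ∈ low s t b then (2 ^ (VV S i).card * x ^ (2 * (VV S i).card)) else 1) := by
    intro i
    split_ifs with hi
    · apply card_Fib3_le _ _ hx0 hx1 (NN_pos hs)
      simp only [low, Finset.mem_filter, Finset.mem_univ, true_and] at hi
      have hib : ((VV S i).card : ℝ) ≤ b := by
        exact_mod_cast VV_card_le_supp S i
      refine hib.trans ?_
      -- numbers
      have e1 : ((NN s t i.val : ℕ) : ℝ) * (s : ℝ) ^ (24 * 8 ^ i.val) = nn s t := by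
        exact_mod_cast NN_mul (s := s) (t := t) (i := i.val) (by omega)
      have e2 : ((NN s t (i.val + 1) : ℕ) : ℝ) * (s : ℝ) ^ (24 * 8 ^ (i.val + 1)) = nn s t := by
        exact_mod_cast NN_mul (s := s) (t := t) (i := i.val + 1) (by omega)
      have e3 : (b : ℝ) ≤ (s : ℝ) ^ 24 * NN s t (i.val + 1) := by exact_mod_cast hi
      set D : ℝ := (s : ℝ) ^ (24 * 8 ^ i.val) with hD
      have hDpos : 0 < D := by positivity
      have e4 : (s : ℝ) ^ (24 * 8 ^ (i.val + 1)) = D ^ 8 := by
        rw [hD, ← pow_mul]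
        congr 1
        ring
      rw [e4] at e2
      -- (D z^3)^8 ≤ (s^3)^8
      have e5 : (D * z ^ 3) ^ 8 ≤ ((s : ℝ) ^ 3) ^ 8 := by
        have h1 : (D * z ^ 3) ^ 8 * nn s t ≤ ((s : ℝ) ^ 3) ^ 8 * nn s t := by
          calc (D * z ^ 3) ^ 8 * nn s t = D ^ 8 * (z ^ 24 * nn s t) := by ring
            _ = D ^ 8 * b := by rw [hz]
            _ ≤ D ^ 8 * ((s : ℝ) ^ 24 * NN s t (i.val + 1)) := by gcongr
            _ = ((s : ℝ) ^ 3) ^ 8 * (NN s t (i.val + 1) * D ^ 8) := by ring
            _ = ((s : ℝ) ^ 3) ^ 8 * nn s t := by rw [e2]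
        exact le_of_mul_le_mul_right h1 hnn
      have e6 : D * z ^ 3 ≤ (s : ℝ) ^ 3 := by
        exact (pow_le_pow_iff_left₀ (by positivity) (by positivity) (by norm_num)).1 e5
      have hN0 : (0 : ℝ) ≤ (NN s t i.val : ℕ) := by positivity
      calc (b : ℝ) = z ^ 24 * nn s t := hz.symm
        _ = z ^ 24 * ((NN s t i.val : ℕ) * D) := by rw [e1]
        _ = (NN s t i.val : ℕ) * ((D * z ^ 3) * z ^ 21) := by ring
        _ ≤ (NN s t i.val : ℕ) * ((s : ℝ) ^ 3 * z ^ 21) := by gcongr
        _ = (NN s t i.val : ℕ) * x ^ 3 := by rw [hx]; ring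
    · rw [mul_one]
      have : (Fib3 (N := NN s t i.val) (VV S i)).card ≤ (NN s t i.val) ^ (nn s t) := by
        refine (Finset.card_le_univ _).trans ?_
        rw [Fintype.card_fun, Fintype.card_fin, Fintype.card_fin]
      exact_mod_cast this
  have hprod : ((compat s t S).card : ℝ) ≤ ∏ i : Fin t,
      (((NN s t i.val : ℕ) : ℝ) ^ (nn s t) *
        (if i ∈ low s t b then (2 ^ (VV S i).card * x ^ (2 * (VV S i).card)) else 1)) := by
    rw [compat, Fintype.card_piFinset]
    push_cast
    exact Finset.prod_le_prod (fun i _ => by positivity) (fun i _ => hlayer i)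
  refine hprod.trans ?_
  rw [Finset.prod_mul_distrib]
  apply mul_le_mul_of_nonneg_left _ (by positivity)
  -- product over low layers
  have h1 : ∏ i : Fin t, (if i ∈ low s t b then
      ((2 : ℝ) ^ (VV S i).card * x ^ (2 * (VV S i).card)) else 1) =
      2 ^ (∑ i ∈ low s t b, (VV S i).card) * x ^ (2 * ∑ i ∈ low s t b, (VV S i).card) := by
    rw [Finset.prod_ite_mem, Finset.univ_inter, Finset.prod_mul_distrib, Finset.prod_pow_eq_pow_sum,
      Finset.prod_pow_eq_pow_sum, Finset.mul_sum]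
  rw [h1]
  have hlow := feas_low hs ht hsM hS
  rw [← hb] at hlow
  set E := ∑ i ∈ low s t b, (VV S i).card with hE
  have hEle : E ≤ t * b := by
    calc E ≤ ∑ i ∈ low s t b, b := Finset.sum_le_sum (fun i _ => VV_card_le_supp S i)
      _ = (low s t b).card * b := by simp
      _ ≤ t * b := by
          apply Nat.mul_le_mul_right
          refine (Finset.card_filter_le _ _).trans ?_
          simp
  have h2 : (2 : ℝ) ^ E ≤ (2 ^ t) ^ b := by
    rw [← pow_mul]
    exact pow_le_pow_right₀ (by norm_num) hEle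
  have h3 : x ^ (2 * E) ≤ ((s : ℝ) ^ 4 * z ^ 27) ^ b := by
    rcases Nat.le_or_ge (2 * E) (4 * b) with hcase | hcase
    · calc x ^ (2 * E) = (s : ℝ) ^ (2 * E) * z ^ (7 * (2 * E)) := by
            rw [hx, mul_pow, ← pow_mul]
        _ ≤ (s : ℝ) ^ (4 * b) * z ^ (27 * b) := by
            apply mul_le_mul
            · exact pow_le_pow_right₀ hs' hcase
            · exact pow_le_pow_of_le_one hz0 hz1 (by omega)
            · positivity
            · positivity
        _ = ((s : ℝ) ^ 4 * z ^ 27) ^ b := by rw [mul_pow, ← pow_mul, ← pow_mul]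
    · calc x ^ (2 * E) ≤ x ^ (4 * b) := pow_le_pow_of_le_one hx0 hx1 hcase
        _ = (s : ℝ) ^ (4 * b) * z ^ (28 * b) := by
            rw [hx, mul_pow, ← pow_mul]
            congr 2
            ring
        _ ≤ (s : ℝ) ^ (4 * b) * z ^ (27 * b) := by
            apply mul_le_mul_of_nonneg_left _ (by positivity)
            exact pow_le_pow_of_le_one hz0 hz1 (by omega)
        _ = ((s : ℝ) ^ 4 * z ^ 27) ^ b := by rw [mul_pow, ← pow_mul, ← pow_mul]
  calc (2 : ℝ) ^ E * x ^ (2 * E) ≤ (2 ^ t) ^ b * ((s : ℝ) ^ 4 * z ^ 27) ^ b := by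
        apply mul_le_mul h2 h3 (by positivity) (by positivity)
    _ = (2 ^ t * ((s : ℝ) ^ 4 * z ^ 27)) ^ b := (mul_pow _ _ _).symm

lemma sum_third (n : ℕ) : ∑ b ∈ Finset.Icc 1 n, ((1 : ℝ) / 3) ^ b < 1 := by
  have h : ∀ n : ℕ, ∑ b ∈ Finset.Icc 1 n, ((1 : ℝ) / 3) ^ b = (1 - (1 / 3) ^ n) / 2 := by
    intro n
    induction n with
    | zero => simp
    | succ n ih =>
      rw [Finset.sum_Icc_succ_top (by omega), ih, pow_succ]
      ring
  rw [h]
  have : (0 : ℝ) ≤ (1 / 3) ^ n := by positivity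
  linarith

/-- **Existence of a good choice.** -/
theorem exists_good (hs : 9 * 4 ^ t ≤ s) (ht : 0 < t) (hsM : 28 * (t * M) ≤ s ^ 24) :
    ∃ f : (i : Fin t) → (Fin (nn s t) → Fin (NN s t i.val)),
      ∀ S : Fin (nn s t) → Finset (Fin t), Feas s t M S → f ∉ compat s t S := by
  classical
  have hs0 : 0 < s := lt_of_lt_of_le (by positivity) hs
  by_contra hcon
  push Not at hcon
  set T : ℝ := ∏ i : Fin t, ((NN s t i.val : ℕ) : ℝ) ^ (nn s t) with hT
  have hTpos : 0 < T := by
    apply Finset.prod_pos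
    intro i _
    have : (0 : ℝ) < (NN s t i.val : ℕ) := by exact_mod_cast NN_pos hs0
    positivity
  -- cover everything by the compatible sets
  have hcover : (Finset.univ : Finset ((i : Fin t) → (Fin (nn s t) → Fin (NN s t i.val)))) ⊆
      (Finset.Icc 1 (nn s t)).biUnion (fun b =>
        ((Finset.univ : Finset (Fin (nn s t) → Finset (Fin t))).filter
          (fun S => (supp S).card = b ∧ Feas s t M S)).biUnion (fun S => compat s t S)) := by
    intro f _
    obtain ⟨S, hS, hf⟩ := hcon f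
    simp only [Finset.mem_biUnion, Finset.mem_filter, Finset.mem_univ, true_and, Finset.mem_Icc]
    refine ⟨(supp S).card, ⟨Finset.card_pos.2 hS.ne, ?_⟩, S, ⟨rfl, hS⟩, hf⟩
    simpa using Finset.card_le_univ (supp S)
  have h1 : T ≤ ∑ b ∈ Finset.Icc 1 (nn s t), ∑ S ∈
      ((Finset.univ : Finset (Fin (nn s t) → Finset (Fin t))).filter
          (fun S => (supp S).card = b ∧ Feas s t M S)), ((compat s t S).card : ℝ) := by
    have h2 := (Finset.card_le_card hcover).trans (Finset.card_biUnion_le.trans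
      (Finset.sum_le_sum (fun b _ => Finset.card_biUnion_le)))
    rw [Finset.card_univ, card_all] at h2
    have h3 : T = ((∏ i : Fin t, (NN s t i.val) ^ (nn s t) : ℕ) : ℝ) := by
      rw [hT]; push_cast; rfl
    rw [h3]
    exact_mod_cast h2
  have h4 : ∀ b ∈ Finset.Icc 1 (nn s t), ∑ S ∈
      ((Finset.univ : Finset (Fin (nn s t) → Finset (Fin t))).filter
          (fun S => (supp S).card = b ∧ Feas s t M S)), ((compat s t S).card : ℝ) ≤
      T * (1 / 3) ^ b := by
    intro b hb
    rw [Finset.mem_Icc] at hb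
    have hb0 : 0 < b := hb.1
    have hnn : (0 : ℝ) < nn s t := by exact_mod_cast nn_pos hs0
    have hb' : (0 : ℝ) < b := by exact_mod_cast hb0
    set z : ℝ := ((b : ℝ) / nn s t) ^ ((1 : ℝ) / 24) with hz
    have hz0 : 0 ≤ z := by positivity
    have hzp : 0 < z := by positivity
    have hz24 : z ^ 24 = (b : ℝ) / nn s t := by
      rw [hz, ← Real.rpow_natCast, ← Real.rpow_mul (by positivity)]
      norm_num
    have hzn : z ^ 24 * nn s t = b := by
      rw [hz24]; field_simp
    by_cases hne : ((Finset.univ : Finset (Fin (nn s t) → Finset (Fin t))).filter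
          (fun S => (supp S).card = b ∧ Feas s t M S)).Nonempty
    · -- the set is nonempty, so `s^7 z ≤ 1`
      obtain ⟨S0, hS0⟩ := hne
      simp only [Finset.mem_filter, Finset.mem_univ, true_and] at hS0
      have hsz : (s : ℝ) ^ 7 * z ≤ 1 :=
        (card_compat_le hs0 ht hsM hS0.2 z hz0 (by rw [hzn, hS0.1])).2
      have h5 : ∀ S ∈ ((Finset.univ : Finset (Fin (nn s t) → Finset (Fin t))).filter
          (fun S => (supp S).card = b ∧ Feas s t M S)), ((compat s t S).card : ℝ) ≤
          T * (2 ^ t * ((s : ℝ) ^ 4 * z ^ 27)) ^ b := by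
        intro S hS
        simp only [Finset.mem_filter, Finset.mem_univ, true_and] at hS
        have := (card_compat_le hs0 ht hsM hS.2 z hz0 (by rw [hzn, hS.1])).1
        rw [hS.1] at this
        exact this
      refine (Finset.sum_le_card_nsmul _ _ _ h5).trans ?_
      rw [nsmul_eq_mul]
      have h6 : ((((Finset.univ : Finset (Fin (nn s t) → Finset (Fin t))).filter
          (fun S => (supp S).card = b ∧ Feas s t M S)).card : ℕ) : ℝ) ≤
          (3 * ((nn s t : ℝ) / b)) ^ b * (2 ^ t) ^ b := by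
        have h7 : ((Finset.univ : Finset (Fin (nn s t) → Finset (Fin t))).filter
          (fun S => (supp S).card = b ∧ Feas s t M S)).card ≤ (nn s t).choose b * (2 ^ t) ^ b := by
          refine le_trans (Finset.card_le_card ?_) (card_patterns b)
          intro S hS
          simp only [Finset.mem_filter, Finset.mem_univ, true_and] at hS ⊢
          exact hS.1
        calc ((((Finset.univ : Finset (Fin (nn s t) → Finset (Fin t))).filter
          (fun S => (supp S).card = b ∧ Feas s t M S)).card : ℕ) : ℝ) ≤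
            (((nn s t).choose b * (2 ^ t) ^ b : ℕ) : ℝ) := by exact_mod_cast h7
          _ = (((nn s t).choose b : ℕ) : ℝ) * (2 ^ t) ^ b := by push_cast; rfl
          _ ≤ (3 * ((nn s t : ℝ) / b)) ^ b * (2 ^ t) ^ b := by
              gcongr
              exact choose_bound _ _ hb0
      calc ((((Finset.univ : Finset (Fin (nn s t) → Finset (Fin t))).filter
          (fun S => (supp S).card = b ∧ Feas s t M S)).card : ℕ) : ℝ) *
            (T * (2 ^ t * ((s : ℝ) ^ 4 * z ^ 27)) ^ b) ≤
            ((3 * ((nn s t : ℝ) / b)) ^ b * (2 ^ t) ^ b) *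
              (T * (2 ^ t * ((s : ℝ) ^ 4 * z ^ 27)) ^ b) := by
            apply mul_le_mul_of_nonneg_right h6 (by positivity)
        _ = T * (3 * ((nn s t : ℝ) / b) * 2 ^ t * (2 ^ t * ((s : ℝ) ^ 4 * z ^ 27))) ^ b := by
            rw [mul_pow, mul_pow, mul_pow, mul_pow]
            ring
        _ ≤ T * (1 / 3) ^ b := by
            apply mul_le_mul_of_nonneg_left _ hTpos.le
            apply pow_le_pow_left₀ (by positivity)
            -- numeric estimate
            have e1 : (nn s t : ℝ) / b * z ^ 24 = 1 := by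
              rw [hz24]; field_simp
            have e2 : 3 * ((nn s t : ℝ) / b) * 2 ^ t * (2 ^ t * ((s : ℝ) ^ 4 * z ^ 27)) =
                3 * (2 ^ t * 2 ^ t) * ((s : ℝ) ^ 4 * z ^ 3) := by
              calc 3 * ((nn s t : ℝ) / b) * 2 ^ t * (2 ^ t * ((s : ℝ) ^ 4 * z ^ 27)) =
                  3 * (2 ^ t * 2 ^ t) * ((s : ℝ) ^ 4 * z ^ 3) * ((nn s t : ℝ) / b * z ^ 24) := by
                    ring
                _ = 3 * (2 ^ t * 2 ^ t) * ((s : ℝ) ^ 4 * z ^ 3) := by rw [e1, mul_one]
            rw [e2]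
            have hs1 : (1 : ℝ) ≤ s := by exact_mod_cast hs0
            have hspos : (0 : ℝ) < s := by linarith
            have e3 : (s : ℝ) * ((s : ℝ) ^ 4 * z ^ 3) ≤ 1 := by
              calc (s : ℝ) * ((s : ℝ) ^ 4 * z ^ 3) = (s : ℝ) ^ 5 * z ^ 3 := by ring
                _ ≤ (s : ℝ) ^ 21 * z ^ 3 := by
                    apply mul_le_mul_of_nonneg_right _ (by positivity)
                    exact pow_le_pow_right₀ hs1 (by norm_num)
                _ = ((s : ℝ) ^ 7 * z) ^ 3 := by ring
                _ ≤ 1 := pow_le_one₀ (by positivity) hsz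
            have e4 : (9 : ℝ) * (2 ^ t * 2 ^ t) ≤ s := by
              have : ((9 * 4 ^ t : ℕ) : ℝ) ≤ s := by exact_mod_cast hs
              push_cast at this
              have h44 : (4 : ℝ) ^ t = 2 ^ t * 2 ^ t := by
                rw [← mul_pow]; norm_num
              rw [h44] at this
              exact this
            have e5 : 0 ≤ (s : ℝ) ^ 4 * z ^ 3 := by positivity
            nlinarith
    · rw [Finset.not_nonempty_iff_eq_empty] at hne
      rw [hne, Finset.sum_empty]
      positivity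
  have h5 := h1.trans (Finset.sum_le_sum h4)
  rw [← Finset.mul_sum] at h5
  have h6 := sum_third (nn s t)
  nlinarith

end

end Run7.h357.Sauer
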