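import Mathlib
import Pool.Agent.H561R3.Om.Strat

set_option autoImplicit false

namespace Run7.h357.Om

open Encodable Pool.Agent.Helper227 Pool.Agent.H561R3 Pool.Agent.H561R3.Om

section defs

open Classical

variable (qU : Str × Str → ℕ → Prop) (qW : Str → ℕ → Prop) (qV : ℕ × IC → ℕ → Prop)

/-- the strategy may move by `r`: a window of length `2 ^ kk κ * r` is available -/
def Act' (κ : Str) (s e0 c r : ℕ) : Prop := Act qU qW qV κ s e0 c (2 ^ kk κ * r)

/-- the number of levels -/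
def TT' (κ : Str) : ℕ := 2 ^ (κ.length + 3)

/-- the initial state -/
def ini' (κ : Str) : List (ℕ × ℕ) :=
  (List.range (TT' κ + 1)).map (fun l => (if l = TT' κ then 1 else 0, 0))

/-- the amount -/
noncomputable def amt' (κ : Str) (s : ℕ) (L : List (ℕ × ℕ)) : ℕ :=
  Nat.findGreatest (fun r => Act' qU qW qV κ s (gE L 0) (gS L (lev L) + kk κ) r)
    (gE L (lev L) - gE L 0)

noncomputable def stepL' (κ : Str) (s : ℕ) (L : List (ℕ × ℕ)) : List (ℕ × ℕ) :=
  (List.range L.length).map (fun l =>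
    if amt' qU qW qV κ s L = 0 then (2 * gE L l, gS L l)
    else (if l + 1 = lev L then 2 * (gE L 0 + amt' qU qW qV κ s L) else 2 * gE L l,
      if l < lev L then s else gS L l))

/-- the state at stage `s` -/
noncomputable def ST' (κ : Str) (s : ℕ) : List (ℕ × ℕ) :=
  Nat.rec (ini' κ) (fun s L => stepL' qU qW qV κ s L) s

end defs

section prim

open Classical

variable {qU : Str × Str → ℕ → Prop} {qW : Str → ℕ → Prop} {qV : ℕ × IC → ℕ → Prop}

variable {α : Type} [Primcodable α]

theorem pr_Act' (hU : PrimrecRel qU) (hW : PrimrecRel qW) (hV : PrimrecRel qV)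
    {κ : α → Str} {s e0 c r : α → ℕ}
    (hκ : Primrec κ) (hs : Primrec s) (he : Primrec e0) (hc : Primrec c) (hr : Primrec r) :
    PrimrecPred fun a => Act' qU qW qV (κ a) (s a) (e0 a) (c a) (r a) := by
  unfold Act'
  exact pr_Act hU hW hV hκ hs he hc
    (Primrec.nat_mul.comp (pr_pow.comp (Primrec.const 2) (pr_kk.comp hκ)) hr)

theorem pr_TT' : Primrec TT' := by
  unfold TT'
  exact pr_pow.comp (Primrec.const 2) (Primrec.nat_add.comp Primrec.list_length (Primrec.const 3))

theorem pr_ini' : Primrec ini' := by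
  unfold ini'
  refine Primrec.list_map (Primrec.list_range.comp (Primrec.succ.comp pr_TT')) ?_
  refine Primrec.pair (Primrec.ite ?_ (Primrec.const 1) (Primrec.const 0)) (Primrec.const 0)
  exact Primrec.eq.comp Primrec.snd (pr_TT'.comp Primrec.fst)

theorem pr_amt' (hU : PrimrecRel qU) (hW : PrimrecRel qW) (hV : PrimrecRel qV)
    {κ : α → Str} {s : α → ℕ} {L : α → List (ℕ × ℕ)}
    (hκ : Primrec κ) (hs : Primrec s) (hL : Primrec L) :
    Primrec fun a => amt' qU qW qV (κ a) (s a) (L a) := by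
  unfold amt'
  have hlev := pr_lev hL
  refine Primrec.nat_findGreatest (p := fun a r => Act' qU qW qV (κ a) (s a) (gE (L a) 0)
    (gS (L a) (lev (L a)) + kk (κ a)) r) ?_ ?_
  · exact Primrec.nat_sub.comp (pr_gE hL hlev) (pr_gE hL (Primrec.const 0))
  · refine pr_Act' (α := α × ℕ) hU hW hV (hκ.comp Primrec.fst) (hs.comp Primrec.fst)
      ((pr_gE hL (Primrec.const 0)).comp Primrec.fst) ?_ Primrec.snd
    exact (Primrec.nat_add.comp (pr_gS hL hlev) (pr_kk.comp hκ)).comp Primrec.fst

theorem pr_stepL' (hU : PrimrecRel qU) (hW : PrimrecRel qW) (hV : PrimrecRel qV)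
    {κ : α → Str} {s : α → ℕ} {L : α → List (ℕ × ℕ)}
    (hκ : Primrec κ) (hs : Primrec s) (hL : Primrec L) :
    Primrec fun a => stepL' qU qW qV (κ a) (s a) (L a) := by
  unfold stepL'
  have hA := pr_amt' hU hW hV hκ hs hL
  have hlev := pr_lev hL
  have hA' := hA.comp (Primrec.fst (α := α) (β := ℕ))
  have hlev' := hlev.comp (Primrec.fst (α := α) (β := ℕ))
  have hL' := hL.comp (Primrec.fst (α := α) (β := ℕ))
  have hs' := hs.comp (Primrec.fst (α := α) (β := ℕ))
  refine Primrec.list_map (Primrec.list_range.comp (Primrec.list_length.comp hL)) ?_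
  refine Primrec.ite ?_ ?_ ?_
  · exact Primrec.eq.comp hA' (Primrec.const 0)
  · exact Primrec.pair (Primrec.nat_mul.comp (Primrec.const 2) (pr_gE hL' Primrec.snd))
      (pr_gS hL' Primrec.snd)
  · refine Primrec.pair (Primrec.ite ?_ ?_ ?_) (Primrec.ite ?_ hs' (pr_gS hL' Primrec.snd))
    · exact Primrec.eq.comp (Primrec.succ.comp Primrec.snd) hlev'
    · exact Primrec.nat_mul.comp (Primrec.const 2) (Primrec.nat_add.comp
        (pr_gE hL' (Primrec.const 0)) hA')
    · exact Primrec.nat_mul.comp (Primrec.const 2) (pr_gE hL' Primrec.snd)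
    · exact Primrec.nat_lt.comp Primrec.snd hlev'

theorem pr_ST' (hU : PrimrecRel qU) (hW : PrimrecRel qW) (hV : PrimrecRel qV) :
    Primrec₂ (ST' qU qW qV) := by
  unfold ST'
  refine Primrec.nat_rec (f := ini') (g := fun κ (x : ℕ × List (ℕ × ℕ)) =>
    stepL' qU qW qV κ x.1 x.2) pr_ini' ?_
  exact pr_stepL' hU hW hV Primrec.fst (Primrec.fst.comp Primrec.snd)
    (Primrec.snd.comp Primrec.snd)

end prim

section facts

open Classical

variable (qU : Str × Str → ℕ → Prop) (qW : Str → ℕ → Prop) (qV : ℕ × IC → ℕ → Prop) (κ : Str)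

noncomputable def EE (l s : ℕ) : ℕ := gE (ST' qU qW qV κ s) l
noncomputable def SS (l s : ℕ) : ℕ := gS (ST' qU qW qV κ s) l
noncomputable def la (s : ℕ) : ℕ := lev (ST' qU qW qV κ s)
noncomputable def am (s : ℕ) : ℕ := amt' qU qW qV κ s (ST' qU qW qV κ s)

theorem ST_zero : ST' qU qW qV κ 0 = ini' κ := rfl

theorem ST_succ (s : ℕ) : ST' qU qW qV κ (s + 1) = stepL' qU qW qV κ s (ST' qU qW qV κ s) := rfl

theorem length_ST (s : ℕ) : (ST' qU qW qV κ s).length = TT' κ + 1 := by
  induction s with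
  | zero => simp [ST_zero, ini']
  | succ s ih => rw [ST_succ]; simp [stepL', ih]

theorem EE_zero {l : ℕ} (hl : l ≤ TT' κ) : EE qU qW qV κ l 0 = if l = TT' κ then 1 else 0 := by
  unfold EE gE
  rw [ST_zero, ini', List.getD_eq_getElem _ _ (by simpa using Nat.lt_succ_of_le hl)]
  simp

theorem SS_zero {l : ℕ} (hl : l ≤ TT' κ) : SS qU qW qV κ l 0 = 0 := by
  unfold SS gS
  rw [ST_zero, ini', List.getD_eq_getElem _ _ (by simpa using Nat.lt_succ_of_le hl)]
  simp

theorem EE_succ {l : ℕ} (s : ℕ) (hl : l ≤ TT' κ) : EE qU qW qV κ l (s + 1) =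
    if am qU qW qV κ s = 0 then 2 * EE qU qW qV κ l s else
      if l + 1 = la qU qW qV κ s then 2 * (EE qU qW qV κ 0 s + am qU qW qV κ s)
      else 2 * EE qU qW qV κ l s := by
  have h1 : l < (ST' qU qW qV κ s).length := by rw [length_ST]; omega
  have h2 : l < (stepL' qU qW qV κ s (ST' qU qW qV κ s)).length := by
    rw [stepL']; simpa using h1
  conv_lhs => unfold EE gE
  rw [ST_succ, List.getD_eq_getElem _ _ h2]
  simp only [stepL', List.getElem_map, List.getElem_range]
  unfold am la EE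
  by_cases ha : amt' qU qW qV κ s (ST' qU qW qV κ s) = 0
  · rw [if_pos ha, if_pos ha]
  · rw [if_neg ha, if_neg ha]

theorem SS_succ {l : ℕ} (s : ℕ) (hl : l ≤ TT' κ) : SS qU qW qV κ l (s + 1) =
    if am qU qW qV κ s = 0 then SS qU qW qV κ l s else
      if l < la qU qW qV κ s then s else SS qU qW qV κ l s := by
  have h1 : l < (ST' qU qW qV κ s).length := by rw [length_ST]; omega
  have h2 : l < (stepL' qU qW qV κ s (ST' qU qW qV κ s)).length := by
    rw [stepL']; simpa using h1
  conv_lhs => unfold SS gS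
  rw [ST_succ, List.getD_eq_getElem _ _ h2]
  simp only [stepL', List.getElem_map, List.getElem_range]
  unfold am la SS
  by_cases ha : amt' qU qW qV κ s (ST' qU qW qV κ s) = 0
  · rw [if_pos ha, if_pos ha]
  · rw [if_neg ha, if_neg ha]

theorem EE_big {l : ℕ} (s : ℕ) (hl : TT' κ < l) : EE qU qW qV κ l s = 0 := by
  unfold EE gE
  rw [List.getD_eq_default _ _ (by rw [length_ST]; omega)]

theorem la_le (s : ℕ) : la qU qW qV κ s ≤ TT' κ + 1 := by
  unfold la lev
  have := List.findIdx_le_length (xs := ST' qU qW qV κ s)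
    (p := fun x => decide (gE (ST' qU qW qV κ s) 0 < x.1))
  rwa [length_ST] at this

theorem of_lt_la {l s : ℕ} (hl : l < la qU qW qV κ s) : EE qU qW qV κ l s ≤ EE qU qW qV κ 0 s := by
  have h0 := la_le qU qW qV κ s
  have h1 : l < (ST' qU qW qV κ s).length := by rw [length_ST]; omega
  have h2 := List.not_of_lt_findIdx (xs := ST' qU qW qV κ s)
    (p := fun x => decide (gE (ST' qU qW qV κ s) 0 < x.1)) hl
  unfold EE
  have h3 : gE (ST' qU qW qV κ s) l = ((ST' qU qW qV κ s)[l]).1 := by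
    unfold gE
    rw [List.getD_eq_getElem _ _ h1]
  rw [h3]
  simpa using h2

theorem la_spec {s : ℕ} (hl : la qU qW qV κ s ≤ TT' κ) :
    EE qU qW qV κ 0 s < EE qU qW qV κ (la qU qW qV κ s) s := by
  have h1 : la qU qW qV κ s < (ST' qU qW qV κ s).length := by rw [length_ST]; omega
  have h2 : decide (gE (ST' qU qW qV κ s) 0 < ((ST' qU qW qV κ s)[la qU qW qV κ s]).1) = true :=
    List.findIdx_getElem (xs := ST' qU qW qV κ s)
      (p := fun x : ℕ × ℕ => decide (gE (ST' qU qW qV κ s) 0 < x.1)) (w := h1)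
  have h3 : gE (ST' qU qW qV κ s) (la qU qW qV κ s) =
      ((ST' qU qW qV κ s)[la qU qW qV κ s]).1 := by
    unfold gE
    rw [List.getD_eq_getElem _ _ h1]
  unfold EE
  rw [h3]
  simpa using h2

theorem la_pos (s : ℕ) : 1 ≤ la qU qW qV κ s := by
  by_contra h
  have h0 : la qU qW qV κ s = 0 := by omega
  have h1 := la_spec qU qW qV κ (s := s) (by omega)
  rw [h0] at h1
  exact lt_irrefl _ h1

theorem la_unique {s l : ℕ} (h1 : ∀ j < l, EE qU qW qV κ j s ≤ EE qU qW qV κ 0 s)
    (h2 : EE qU qW qV κ 0 s < EE qU qW qV κ l s) : la qU qW qV κ s = l := by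
  have hlT : l ≤ TT' κ := by
    by_contra h
    rw [EE_big qU qW qV κ s (l := l) (by omega)] at h2
    omega
  rcases lt_trichotomy (la qU qW qV κ s) l with h | h | h
  · have h3 := la_spec qU qW qV κ (s := s) (by omega)
    have h4 := h1 _ h
    omega
  · exact h
  · have h3 := of_lt_la qU qW qV κ h
    omega

theorem am_le (s : ℕ) : am qU qW qV κ s ≤
    EE qU qW qV κ (la qU qW qV κ s) s - EE qU qW qV κ 0 s := by
  unfold am amt'
  exact Nat.findGreatest_le _

theorem am_spec {s : ℕ} (h : am qU qW qV κ s ≠ 0) :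
    Act' qU qW qV κ s (EE qU qW qV κ 0 s)
      (SS qU qW qV κ (la qU qW qV κ s) s + kk κ) (am qU qW qV κ s) := by
  unfold am amt' at h ⊢
  exact Nat.findGreatest_of_ne_zero rfl h

theorem le_am {s r : ℕ} (h1 : r ≤ EE qU qW qV κ (la qU qW qV κ s) s - EE qU qW qV κ 0 s)
    (h2 : Act' qU qW qV κ s (EE qU qW qV κ 0 s)
      (SS qU qW qV κ (la qU qW qV κ s) s + kk κ) r) : r ≤ am qU qW qV κ s := by
  unfold am amt'
  exact Nat.le_findGreatest h1 h2

theorem la_le_of_am {s : ℕ} (h : am qU qW qV κ s ≠ 0) : la qU qW qV κ s ≤ TT' κ := by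
  by_contra h1
  have h2 := am_le qU qW qV κ s
  rw [EE_big qU qW qV κ s (l := la qU qW qV κ s) (by omega)] at h2
  omega

end facts

end Run7.h357.Om
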