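import Mathlib
import Pool.Agent.H561R3.Om.Meas
import Pool.Agent.Run7.h357.OmStrat

set_option autoImplicit false

namespace Run7.h357.Om

open Encodable Pool.Agent.Helper227 Pool.Agent.H561R3 Pool.Agent.H561R3.Om MeasureTheory

section abstractStep

theorem sub_step {ψ : ℝ → ℝ} (hm : Monotone ψ) (hl : ∀ y z, y ≤ z → ψ z ≤ ψ y + (z - y))
    {p r rt K θ dC dR dO : ℝ} (hr0 : 0 ≤ r) (hr : r ≤ rt) (hC : 0 ≤ dC)
    (hOR : dO ≤ dR) (hIH : θ * r ≤ dC + dR) (hR : 0 ≤ dR)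
    (hK : 2 ≤ K) (hθ : 2 * θ ≤ K) (hwin : ψ (p + K * rt) = ψ p)
    (hd : dO = 0 ∨ K * rt ≤ dO) :
    ψ (p + r + dC - dR) - ψ p + dO ≤ 2 * (dC + dR - θ * r) := by
  have h1 : 2 * θ * r ≤ K * rt := by
    calc 2 * θ * r ≤ K * r := by nlinarith
      _ ≤ K * rt := by nlinarith
  rcases le_total (p + r + dC - dR) (p + K * rt) with h | h
  · have h2 : ψ (p + r + dC - dR) - ψ p ≤ 0 := by
      have := hm h
      linarith
    rcases hd with hd | hd
    · rw [hd]; linarith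
    · have h3 : 2 * θ * r ≤ dR := by linarith
      nlinarith
  · have h2 : ψ (p + r + dC - dR) ≤ ψ p + (r + dC - dR - K * rt) := by
      have := hl _ _ h
      rw [hwin] at this
      linarith
    have h4 : 2 * rt ≤ K * rt := by nlinarith
    rcases hd with hd | hd
    · rw [hd]; nlinarith
    · nlinarith

end abstractStep

section ms

/-- mass of a finite set of strings -/
noncomputable def ms (F : Finset Str) : ℝ := ∑ p ∈ F, (1 / 2 : ℝ) ^ p.length

theorem ms_nonneg (F : Finset Str) : 0 ≤ ms F := Finset.sum_nonneg fun _ _ => by positivity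

theorem ms_mono {F G : Finset Str} (h : F ⊆ G) : ms F ≤ ms G :=
  Finset.sum_le_sum_of_subset_of_nonneg h fun _ _ _ => by positivity

theorem ms_sdiff {F G : Finset Str} (h : F ⊆ G) : ms (G \ F) = ms G - ms F := by
  unfold ms
  have := Finset.sum_sdiff (f := fun p : Str => (1 / 2 : ℝ) ^ p.length) h
  linarith

theorem ms_union_le (F G : Finset Str) : ms (F ∪ G) ≤ ms F + ms G := by
  unfold ms
  have h := Finset.sum_union_inter (s₁ := F) (s₂ := G) (f := fun p : Str => (1 / 2 : ℝ) ^ p.length)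
  have h2 := ms_nonneg (F ∩ G)
  unfold ms at h2
  linarith

theorem ms_zero_or {F : Finset Str} {a : ℕ} (h : ∀ p ∈ F, p.length ≤ a) :
    ms F = 0 ∨ (1 / 2 : ℝ) ^ a ≤ ms F := by
  rcases F.eq_empty_or_nonempty with h0 | ⟨p, hp⟩
  · left; rw [h0]; simp [ms]
  · right
    calc (1 / 2 : ℝ) ^ a ≤ (1 / 2 : ℝ) ^ p.length :=
          pow_le_pow_of_le_one (by norm_num) (by norm_num) (h p hp)
      _ ≤ ms F := Finset.single_le_sum (f := fun p : Str => (1 / 2 : ℝ) ^ p.length)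
          (fun _ _ => by positivity) hp

end ms

section val

open Classical

variable (qU : Str × Str → ℕ → Prop) (qW : Str → ℕ → Prop) (qV : ℕ × IC → ℕ → Prop) (κ : Str)

noncomputable def Bf (s : ℕ) : Finset Str := (upTo s).toFinset.filter (fun p => bornP qU κ s p)
noncomputable def Gf (s : ℕ) : Finset Str := (upTo s).toFinset.filter (fun p => goneP qU qW κ s p)

/-- real target -/
noncomputable def TR (l s : ℕ) : ℝ := (EE qU qW qV κ l s : ℝ) / 2 ^ (s + κ.length)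

noncomputable def vl (s : ℕ) : ℝ := ms (Bf qU κ s) - ms (Gf qU qW κ s) + TR qU qW qV κ 0 s

/-- the set enumerated -/
def Vs (c : ℕ) : Set IC := {t | ∃ s, qV (c, t) s}

noncomputable def psi (c : ℕ) (y : ℝ) : ℝ := y - vv (Vs qV) c y

noncomputable def th (l : ℕ) : ℝ := 3 * l / 8

theorem Gf_sub_Bf (s : ℕ) : Gf qU qW κ s ⊆ Bf qU κ s := by
  intro p hp
  simp only [Gf, Bf, Finset.mem_filter] at hp ⊢
  exact ⟨hp.1, hp.2.1⟩

variable {qU qW qV κ}

theorem mem_Bf {s : ℕ} {p : Str} : p ∈ Bf qU κ s ↔ bornP qU κ s p := by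
  simp only [Bf, Finset.mem_filter, List.mem_toFinset, mem_upTo]
  exact ⟨fun h => h.2, fun h => ⟨h.1, h⟩⟩

theorem mem_Gf {s : ℕ} {p : Str} : p ∈ Gf qU qW κ s ↔ goneP qU qW κ s p := by
  simp only [Gf, Finset.mem_filter, List.mem_toFinset, mem_upTo]
  exact ⟨fun h => h.2, fun h => ⟨h.1.1, h⟩⟩

theorem born_mono (hUm : ∀ x m n, m ≤ n → qU x m → qU x n) {s t : ℕ} (h : s ≤ t) {p : Str}
    (hp : bornP qU κ s p) : bornP qU κ t p := by
  obtain ⟨h1, h2, x, hx, h3⟩ := hp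
  exact ⟨h1.trans h, h2, x, cand_mono h hx, hUm _ _ _ h h3⟩

theorem gone_mono (hUm : ∀ x m n, m ≤ n → qU x m → qU x n)
    (hWm : ∀ x m n, m ≤ n → qW x m → qW x n) {s t : ℕ} (h : s ≤ t) {p : Str}
    (hp : goneP qU qW κ s p) : goneP qU qW κ t p := by
  obtain ⟨h1, x, hx, h3, h4⟩ := hp
  exact ⟨born_mono hUm h h1, x, cand_mono h hx, hUm _ _ _ h h3, hWm _ _ _ h h4⟩

theorem Bf_mono (hUm : ∀ x m n, m ≤ n → qU x m → qU x n) {s t : ℕ} (h : s ≤ t) :
    Bf qU κ s ⊆ Bf qU κ t := fun _ hp => mem_Bf.2 (born_mono hUm h (mem_Bf.1 hp))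

theorem Gf_mono (hUm : ∀ x m n, m ≤ n → qU x m → qU x n)
    (hWm : ∀ x m n, m ≤ n → qW x m → qW x n) {s t : ℕ} (h : s ≤ t) :
    Gf qU qW κ s ⊆ Gf qU qW κ t := fun _ hp => mem_Gf.2 (gone_mono hUm hWm h (mem_Gf.1 hp))

theorem nodup_upTo (b : ℕ) : (upTo b).Nodup := by
  unfold upTo
  rw [List.nodup_flatMap]
  refine ⟨fun n _ => nodup_strs n, ?_⟩
  refine List.Pairwise.imp ?_ List.nodup_range
  intro a b hab
  simp only [Function.onFun, List.Disjoint, mem_strs]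
  intro x h1 h2
  exact hab (h1.symm.trans h2)

theorem nb_eq (s : ℕ) : (nb qU qW κ s : ℝ) / 2 ^ s = ms (Bf qU κ s) - ms (Gf qU qW κ s) := by
  rw [← ms_sdiff (Gf_sub_Bf qU qW κ s)]
  unfold nb ms
  rw [← List.sum_toFinset _ (nodup_upTo s)]
  have h0 : Bf qU κ s \ Gf qU qW κ s = (upTo s).toFinset.filter
      (fun p => bornP qU κ s p ∧ ¬ goneP qU qW κ s p) := by
    ext p
    rw [Finset.mem_sdiff, mem_Bf, mem_Gf, Finset.mem_filter, List.mem_toFinset, mem_upTo]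
    exact ⟨fun h => ⟨h.1.1, h⟩, fun h => h.2⟩
  rw [h0, Finset.sum_filter]
  push_cast
  rw [Finset.sum_div]
  refine Finset.sum_congr rfl fun p hp => ?_
  rw [List.mem_toFinset, mem_upTo] at hp
  by_cases h : bornP qU κ s p ∧ ¬ goneP qU qW κ s p
  · rw [if_pos h, if_pos h, pow_sub₀ _ (by norm_num) hp, one_div, inv_pow]
    field_simp
  · rw [if_neg h, if_neg h]; simp

theorem NN_eq (s e0 : ℕ) : (NN qU qW κ s e0 : ℝ) / 2 ^ (s + κ.length) =
    ms (Bf qU κ s) - ms (Gf qU qW κ s) + (e0 : ℝ) / 2 ^ (s + κ.length) := by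
  rw [← nb_eq]
  unfold NN
  push_cast
  rw [pow_add]
  field_simp

theorem act_spec {s e0 c r : ℕ} (h : Act' qU qW qV κ s e0 c r) :
    ∃ t ∈ Vs qV c, ratOf t.1 <
        ms (Bf qU κ s) - ms (Gf qU qW κ s) + (e0 : ℝ) / 2 ^ (s + κ.length) ∧
      ms (Bf qU κ s) - ms (Gf qU qW κ s) + (e0 : ℝ) / 2 ^ (s + κ.length) +
        2 ^ kk κ * ((r : ℝ) / 2 ^ (s + κ.length)) ≤ ratOf t.2 := by
  obtain ⟨t, ht, h1, h2, h3⟩ := h
  refine ⟨t, ⟨s, h1⟩, ?_, ?_⟩
  · rw [← NN_eq]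
    unfold ratOf
    rw [div_lt_div_iff₀ (by positivity) (by positivity)]
    have : ((t.1.1 * 2 ^ (s + κ.length) : ℕ) : ℝ) <
      ((NN qU qW κ s e0 * (t.1.2.2 + 1) + t.1.2.1 * 2 ^ (s + κ.length) : ℕ) : ℝ) := by
        exact_mod_cast h2
    push_cast at this
    linarith
  · rw [← NN_eq, ← mul_div_assoc, ← add_div]
    unfold ratOf
    rw [div_le_div_iff₀ (by positivity) (by positivity)]
    have : (((NN qU qW κ s e0 + 2 ^ kk κ * r) * (t.2.2.2 + 1) +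
        t.2.2.1 * 2 ^ (s + κ.length) : ℕ) : ℝ) ≤
      ((t.2.1 * 2 ^ (s + κ.length) : ℕ) : ℝ) := by exact_mod_cast h3
    push_cast at this
    linarith

/-- converse of `act_spec` -/
theorem act_of {s e0 c r : ℕ} {t : IC} (ht : t ∈ cand IC s) (hq : qV (c, t) s)
    (h1 : ratOf t.1 < ms (Bf qU κ s) - ms (Gf qU qW κ s) + (e0 : ℝ) / 2 ^ (s + κ.length))
    (h2 : ms (Bf qU κ s) - ms (Gf qU qW κ s) + (e0 : ℝ) / 2 ^ (s + κ.length) +
        2 ^ kk κ * ((r : ℝ) / 2 ^ (s + κ.length)) ≤ ratOf t.2) :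
    Act' qU qW qV κ s e0 c r := by
  refine ⟨t, ht, hq, ?_, ?_⟩
  · rw [← NN_eq] at h1
    unfold ratOf at h1
    rw [div_lt_div_iff₀ (by positivity) (by positivity)] at h1
    have : ((t.1.1 * 2 ^ (s + κ.length) : ℕ) : ℝ) <
      ((NN qU qW κ s e0 * (t.1.2.2 + 1) + t.1.2.1 * 2 ^ (s + κ.length) : ℕ) : ℝ) := by
        push_cast
        linarith
    exact_mod_cast this
  · rw [← NN_eq, ← mul_div_assoc, ← add_div] at h2
    unfold ratOf at h2
    rw [div_le_div_iff₀ (by positivity) (by positivity)] at h2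
    have : (((NN qU qW κ s e0 + 2 ^ kk κ * r) * (t.2.2.2 + 1) +
        t.2.2.1 * 2 ^ (s + κ.length) : ℕ) : ℝ) ≤
      ((t.2.1 * 2 ^ (s + κ.length) : ℕ) : ℝ) := by
        push_cast
        linarith
    exact_mod_cast this

end val

end Run7.h357.Om
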