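import Mathlib
import Pool.Agent.Run7.h357.OmAcc

set_option autoImplicit false

namespace Run7.h357.Om

open Encodable Pool.Agent.Helper227 Pool.Agent.H561R3 Pool.Agent.H561R3.Om MeasureTheory

section tr

variable (qU : Str × Str → ℕ → Prop) (qW : Str → ℕ → Prop) (qV : ℕ × IC → ℕ → Prop) (κ : Str)

/-- the real amount moved -/
noncomputable def rho (s : ℕ) : ℝ := (am qU qW qV κ s : ℝ) / 2 ^ (s + κ.length)

theorem TR_le_iff {l l' s : ℕ} :
    TR qU qW qV κ l s ≤ TR qU qW qV κ l' s ↔ EE qU qW qV κ l s ≤ EE qU qW qV κ l' s := by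
  unfold TR
  rw [div_le_div_iff_of_pos_right (by positivity)]
  exact Nat.cast_le

theorem TR_lt_iff {l l' s : ℕ} :
    TR qU qW qV κ l s < TR qU qW qV κ l' s ↔ EE qU qW qV κ l s < EE qU qW qV κ l' s := by
  unfold TR
  rw [div_lt_div_iff_of_pos_right (by positivity)]
  exact Nat.cast_lt

theorem TR_succ_of_eq {l s : ℕ} (hl : l ≤ TT' κ) (h : am qU qW qV κ s = 0 ∨ l + 1 ≠ la qU qW qV κ s) :
    TR qU qW qV κ l (s + 1) = TR qU qW qV κ l s := by
  unfold TR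
  rw [EE_succ qU qW qV κ s hl]
  have h1 : (if am qU qW qV κ s = 0 then 2 * EE qU qW qV κ l s else
      if l + 1 = la qU qW qV κ s then 2 * (EE qU qW qV κ 0 s + am qU qW qV κ s)
      else 2 * EE qU qW qV κ l s) = 2 * EE qU qW qV κ l s := by
    split_ifs with h2 h3
    · rfl
    · rcases h with h | h
      · exact absurd h h2
      · exact absurd h3 h
    · rfl
  rw [h1]
  push_cast
  rw [show s + 1 + κ.length = (s + κ.length) + 1 by ring, pow_succ]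
  field_simp

theorem TR_succ_of_ne {l s : ℕ} (hl : l ≤ TT' κ) (h : am qU qW qV κ s ≠ 0)
    (h' : l + 1 = la qU qW qV κ s) :
    TR qU qW qV κ l (s + 1) = TR qU qW qV κ 0 s + rho qU qW qV κ s := by
  unfold TR rho
  rw [EE_succ qU qW qV κ s hl, if_neg h, if_pos h']
  push_cast
  rw [show s + 1 + κ.length = (s + κ.length) + 1 by ring, pow_succ]
  field_simp

theorem rho_pos {s : ℕ} (h : am qU qW qV κ s ≠ 0) :
    (1 / 2 : ℝ) ^ (s + κ.length) ≤ rho qU qW qV κ s := by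
  unfold rho
  rw [one_div, inv_pow, inv_eq_one_div]
  have : (1 : ℝ) ≤ (am qU qW qV κ s : ℝ) := by exact_mod_cast Nat.one_le_iff_ne_zero.2 h
  gcongr

theorem rho_nonneg (s : ℕ) : 0 ≤ rho qU qW qV κ s := by unfold rho; positivity

theorem TR_rho_le {s : ℕ} (h : am qU qW qV κ s ≠ 0) :
    TR qU qW qV κ 0 s + rho qU qW qV κ s ≤ TR qU qW qV κ (la qU qW qV κ s) s := by
  unfold TR rho
  rw [← add_div]
  have h1 := am_le qU qW qV κ s
  have h2 : EE qU qW qV κ 0 s + am qU qW qV κ s ≤ EE qU qW qV κ (la qU qW qV κ s) s := by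
    omega
  have h3 : (EE qU qW qV κ 0 s : ℝ) + am qU qW qV κ s ≤
    (EE qU qW qV κ (la qU qW qV κ s) s : ℝ) := by exact_mod_cast h2
  gcongr

theorem TT'_pos : 0 < TT' κ := by unfold TT'; positivity

theorem TR0_mono_succ (s : ℕ) : TR qU qW qV κ 0 s ≤ TR qU qW qV κ 0 (s + 1) := by
  by_cases h : am qU qW qV κ s = 0 ∨ 0 + 1 ≠ la qU qW qV κ s
  · rw [TR_succ_of_eq qU qW qV κ (Nat.zero_le _) h]
  · push Not at h
    rw [TR_succ_of_ne qU qW qV κ (Nat.zero_le _) h.1 h.2]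
    linarith [rho_nonneg qU qW qV κ s]

theorem TR0_mono : Monotone (TR qU qW qV κ 0) := monotone_nat_of_le_succ (TR0_mono_succ qU qW qV κ)

theorem TR_top (s : ℕ) : TR qU qW qV κ (TT' κ) s = (1 / 2 : ℝ) ^ κ.length := by
  induction s with
  | zero =>
    unfold TR
    rw [EE_zero qU qW qV κ le_rfl, if_pos rfl]
    simp
  | succ s ih =>
    rw [TR_succ_of_eq qU qW qV κ le_rfl, ih]
    by_cases h : am qU qW qV κ s = 0
    · exact Or.inl h
    · right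
      have := la_le_of_am qU qW qV κ h
      omega

theorem SS_top (s : ℕ) : SS qU qW qV κ (TT' κ) s = 0 := by
  induction s with
  | zero => exact SS_zero qU qW qV κ le_rfl
  | succ s ih =>
    rw [SS_succ qU qW qV κ s le_rfl, ih]
    split_ifs with h h'
    · rfl
    · have := la_le_of_am qU qW qV κ h
      omega
    · rfl

theorem TR0_zero : TR qU qW qV κ 0 0 = 0 := by
  unfold TR
  rw [EE_zero qU qW qV κ (Nat.zero_le _), if_neg (TT'_pos κ).ne]
  simp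

theorem SS_succ_of_ge {l s : ℕ} (hl : l ≤ TT' κ) (h : am qU qW qV κ s = 0 ∨ la qU qW qV κ s ≤ l) :
    SS qU qW qV κ l (s + 1) = SS qU qW qV κ l s := by
  rw [SS_succ qU qW qV κ s hl]
  split_ifs with h1 h2
  · rfl
  · rcases h with h | h
    · exact absurd h h1
    · omega
  · rfl

theorem SS_succ_of_lt {l s : ℕ} (h : am qU qW qV κ s ≠ 0) (h' : l < la qU qW qV κ s) :
    SS qU qW qV κ l (s + 1) = s := by
  have := la_le_of_am qU qW qV κ h
  rw [SS_succ qU qW qV κ s (by omega), if_neg h, if_pos h']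

/-- level after a wait -/
theorem la_wait {s : ℕ} (h : am qU qW qV κ s = 0) (hl : la qU qW qV κ s ≤ TT' κ) :
    la qU qW qV κ (s + 1) = la qU qW qV κ s := by
  apply la_unique
  · intro j hj
    rw [← TR_le_iff, TR_succ_of_eq qU qW qV κ (by omega) (Or.inl h),
      TR_succ_of_eq qU qW qV κ (by omega) (Or.inl h), TR_le_iff]
    exact of_lt_la qU qW qV κ hj
  · rw [← TR_lt_iff, TR_succ_of_eq qU qW qV κ (by omega) (Or.inl h),
      TR_succ_of_eq qU qW qV κ (by omega) (Or.inl h), TR_lt_iff]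
    exact la_spec qU qW qV κ hl

/-- level after a move at a level at least two -/
theorem la_move {s : ℕ} (h : am qU qW qV κ s ≠ 0) (hl : 2 ≤ la qU qW qV κ s) :
    la qU qW qV κ (s + 1) = la qU qW qV κ s - 1 := by
  have hT := la_le_of_am qU qW qV κ h
  have h0 : TR qU qW qV κ 0 (s + 1) = TR qU qW qV κ 0 s :=
    TR_succ_of_eq qU qW qV κ (by omega) (Or.inr (by omega))
  apply la_unique
  · intro j hj
    rw [← TR_le_iff, TR_succ_of_eq qU qW qV κ (by omega) (Or.inr (by omega)), h0, TR_le_iff]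
    exact of_lt_la qU qW qV κ (by omega)
  · rw [← TR_lt_iff, TR_succ_of_ne qU qW qV κ (l := la qU qW qV κ s - 1) (by omega) h (by omega),
      h0]
    have h1 := rho_pos qU qW qV κ h
    have h2 : (0 : ℝ) < (1 / 2 : ℝ) ^ (s + κ.length) := by positivity
    linarith

end tr

section inv

variable (qU : Str × Str → ℕ → Prop) (qW : Str → ℕ → Prop) (qV : ℕ × IC → ℕ → Prop) (κ : Str)

def FI (l a τ : ℕ) : Prop :=
  psi qV (a + kk κ) (vl qU qW qV κ τ) - psi qV (a + kk κ) (vl qU qW qV κ a) +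
      (ms (Gf qU qW κ τ ∩ Bf qU κ a) - ms (Gf qU qW κ a)) ≤
    2 * ((ms (Bf qU κ τ) + ms (Gf qU qW κ τ)) - (ms (Bf qU κ a) + ms (Gf qU qW κ a))
      - th (l - 1) * (TR qU qW qV κ 0 τ - TR qU qW qV κ 0 a))

def CL (l a τ : ℕ) : Prop :=
  th l * (TR qU qW qV κ 0 τ - TR qU qW qV κ 0 a) ≤
    (ms (Bf qU κ τ) + ms (Gf qU qW κ τ)) - (ms (Bf qU κ a) + ms (Gf qU qW κ a))

def Win (c τ : ℕ) (rt : ℝ) : Prop :=
  psi qV c (vl qU qW qV κ τ + 2 ^ kk κ * rt) = psi qV c (vl qU qW qV κ τ) ∧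
    2 ^ kk κ * rt ≤ (1 / 2 : ℝ) ^ c

variable {qU qW qV κ}

variable (hUm : ∀ x m n, m ≤ n → qU x m → qU x n) (hWm : ∀ x m n, m ≤ n → qW x m → qW x n)
  (hV : ∀ n, volume (openOf (Vs qV n)) ≤ ENNReal.ofReal ((1 / 2 : ℝ) ^ n))

include hV in
theorem psi_mono (c : ℕ) : Monotone (psi qV c) := by
  intro y z h
  unfold psi
  have := vv_lip hV c y z h
  linarith

include hV in
theorem psi_lip (c : ℕ) (y z : ℝ) (h : y ≤ z) : psi qV c z ≤ psi qV c y + (z - y) := by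
  unfold psi
  have := vv_mono hV c h
  linarith

include hV in
theorem psi_low (c : ℕ) (y z : ℝ) : (z - y) - (1 / 2 : ℝ) ^ c ≤ psi qV c z - psi qV c y := by
  unfold psi
  have h1 := vv_le hV c z
  have h2 := vv_nonneg hV c y
  linarith

include hV in
theorem win_of {c τ : ℕ} {rt : ℝ} (hr : 0 ≤ rt) {t : IC} (ht : t ∈ Vs qV c)
    (h1 : ratOf t.1 < vl qU qW qV κ τ) (h2 : vl qU qW qV κ τ + 2 ^ kk κ * rt ≤ ratOf t.2) :
    Win qU qW qV κ c τ rt := by
  have h0 : 0 ≤ 2 ^ kk κ * rt := by positivity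
  have h3 := vv_grow hV c (vl qU qW qV κ τ) (2 ^ kk κ * rt) h0 ht h1 h2
  have h4 := vv_lip hV c (vl qU qW qV κ τ) (vl qU qW qV κ τ + 2 ^ kk κ * rt) (by linarith)
  have h5 := vv_le hV c (vl qU qW qV κ τ + 2 ^ kk κ * rt)
  have h6 := vv_nonneg hV c (vl qU qW qV κ τ)
  refine ⟨?_, by linarith⟩
  unfold psi
  linarith

include hV in
theorem win_am {s : ℕ} (h : am qU qW qV κ s ≠ 0) :
    Win qU qW qV κ (SS qU qW qV κ (la qU qW qV κ s) s + kk κ) s (rho qU qW qV κ s) := by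
  obtain ⟨t, ht, h1, h2⟩ := act_spec (am_spec qU qW qV κ h)
  exact win_of hV (rho_nonneg qU qW qV κ s) ht h1 h2

theorem vl_sub (σ τ : ℕ) : vl qU qW qV κ τ = vl qU qW qV κ σ +
    (TR qU qW qV κ 0 τ - TR qU qW qV κ 0 σ) + (ms (Bf qU κ τ) - ms (Bf qU κ σ)) -
      (ms (Gf qU qW κ τ) - ms (Gf qU qW κ σ)) := by
  unfold vl; ring

theorem th_succ (l : ℕ) : th (l + 1) = th l + 3 / 8 := by
  unfold th; push_cast; ring

include hUm hWm hV in
theorem complete {l a τ : ℕ} (haτ : a ≤ τ) (hF : FI qU qW qV κ (l + 1) a τ)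
    (hY : (1 / 2 : ℝ) ^ (a + κ.length) ≤ TR qU qW qV κ 0 τ - TR qU qW qV κ 0 a) :
    CL qU qW qV κ (l + 1) a τ := by
  unfold FI at hF
  unfold CL
  have h1 := psi_low hV (a + kk κ) (vl qU qW qV κ a) (vl qU qW qV κ τ)
  have h2 : (1 / 2 : ℝ) ^ (a + kk κ) = (1 / 2 : ℝ) ^ (a + κ.length) / 8 := by
    unfold kk
    rw [← add_assoc, pow_add]; ring
  have h3 := vl_sub (qU := qU) (qW := qW) (qV := qV) (κ := κ) a τ
  have h4 : ms (Gf qU qW κ τ) ≤ ms (Gf qU qW κ τ ∩ Bf qU κ a) +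
      (ms (Bf qU κ τ) - ms (Bf qU κ a)) := by
    rw [← ms_sdiff (Bf_mono hUm haτ)]
    refine le_trans (ms_mono ?_) (ms_union_le _ _)
    intro p hp
    rw [Finset.mem_union, Finset.mem_inter, Finset.mem_sdiff]
    by_cases hpa : p ∈ Bf qU κ a
    · left; exact ⟨hp, hpa⟩
    · right; exact ⟨Gf_sub_Bf _ _ _ _ hp, hpa⟩
  rw [th_succ]
  simp only [Nat.add_sub_cancel] at hF
  have h5 : 0 ≤ TR qU qW qV κ 0 τ - TR qU qW qV κ 0 a :=
    le_trans (by positivity) hY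
  set Y := TR qU qW qV κ 0 τ - TR qU qW qV κ 0 a with hYdef
  have h6 : vl qU qW qV κ τ - vl qU qW qV κ a = Y + (ms (Bf qU κ τ) - ms (Bf qU κ a)) -
      (ms (Gf qU qW κ τ) - ms (Gf qU qW κ a)) := by rw [h3]; ring
  rw [h6, h2] at h1
  nlinarith

include hUm hWm hV in
theorem substep {l a σ τ : ℕ} {rt : ℝ} (hστ : σ ≤ τ) (hF : FI qU qW qV κ (l + 1) a σ)
    (hW : Win qU qW qV κ (a + kk κ) σ rt) (hC : CL qU qW qV κ l σ τ)
    (h1 : TR qU qW qV κ 0 τ - TR qU qW qV κ 0 σ ≤ rt) (hl : l < TT' κ) :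
    FI qU qW qV κ (l + 1) a τ := by
  unfold FI at hF ⊢
  unfold CL at hC
  simp only [Nat.add_sub_cancel] at hF ⊢
  have hr0 : 0 ≤ TR qU qW qV κ 0 τ - TR qU qW qV κ 0 σ :=
    sub_nonneg.2 (TR0_mono qU qW qV κ hστ)
  have hK : (2 : ℝ) ≤ 2 ^ kk κ := by
    calc (2 : ℝ) = 2 ^ 1 := by norm_num
      _ ≤ 2 ^ kk κ := pow_le_pow_right₀ (by norm_num) (by unfold kk; omega)
  have hθ : 2 * th l ≤ 2 ^ kk κ := by
    have : (l : ℝ) ≤ 2 ^ kk κ := by
      have h2 : l ≤ 2 ^ kk κ := by unfold TT' at hl; unfold kk; omega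
      exact_mod_cast h2
    unfold th
    linarith [show (0 : ℝ) ≤ l by positivity]
  have hB := ms_mono (Bf_mono (κ := κ) hUm hστ)
  have hG := ms_mono (Gf_mono (κ := κ) hUm hWm hστ)
  have hsub : Gf qU qW κ σ ∩ Bf qU κ a ⊆ Gf qU qW κ τ ∩ Bf qU κ a :=
    Finset.inter_subset_inter_right (Gf_mono hUm hWm hστ)
  have hOR : ms (Gf qU qW κ τ ∩ Bf qU κ a) - ms (Gf qU qW κ σ ∩ Bf qU κ a) ≤
      ms (Gf qU qW κ τ) - ms (Gf qU qW κ σ) := by
    rw [← ms_sdiff hsub, ← ms_sdiff (Gf_mono hUm hWm hστ)]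
    apply ms_mono
    intro p hp
    rw [Finset.mem_sdiff, Finset.mem_inter, Finset.mem_inter] at hp
    rw [Finset.mem_sdiff]
    exact ⟨hp.1.1, fun h => hp.2 ⟨h, hp.1.2⟩⟩
  have hd : ms (Gf qU qW κ τ ∩ Bf qU κ a) - ms (Gf qU qW κ σ ∩ Bf qU κ a) = 0 ∨
      2 ^ kk κ * rt ≤ ms (Gf qU qW κ τ ∩ Bf qU κ a) - ms (Gf qU qW κ σ ∩ Bf qU κ a) := by
    rw [← ms_sdiff hsub]
    rcases ms_zero_or (F := (Gf qU qW κ τ ∩ Bf qU κ a) \ (Gf qU qW κ σ ∩ Bf qU κ a)) (a := a)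
      (fun p hp => by
        rw [Finset.mem_sdiff, Finset.mem_inter] at hp
        exact (mem_Bf.1 hp.1.2).1) with h | h
    · exact Or.inl h
    · right
      refine hW.2.trans (le_trans ?_ h)
      exact pow_le_pow_of_le_one (by norm_num) (by norm_num) (by omega)
  have h3 := sub_step (psi_mono hV (a + kk κ)) (psi_lip hV (a + kk κ))
    (p := vl qU qW qV κ σ) hr0 h1 (sub_nonneg.2 hB) hOR (by linarith) (sub_nonneg.2 hG) hK hθ
    hW.1 hd
  rw [← vl_sub] at h3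
  linarith

include hUm hWm hV in
theorem waitstep {l a σ τ : ℕ} (hστ : σ ≤ τ) (hF : FI qU qW qV κ l a σ)
    (h1 : TR qU qW qV κ 0 τ = TR qU qW qV κ 0 σ) : FI qU qW qV κ l a τ := by
  unfold FI at hF ⊢
  have hB := ms_mono (Bf_mono (κ := κ) hUm hστ)
  have hG := ms_mono (Gf_mono (κ := κ) hUm hWm hστ)
  have hsub : Gf qU qW κ σ ∩ Bf qU κ a ⊆ Gf qU qW κ τ ∩ Bf qU κ a :=
    Finset.inter_subset_inter_right (Gf_mono hUm hWm hστ)
  have hOR : ms (Gf qU qW κ τ ∩ Bf qU κ a) - ms (Gf qU qW κ σ ∩ Bf qU κ a) ≤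
      ms (Gf qU qW κ τ) - ms (Gf qU qW κ σ) := by
    rw [← ms_sdiff hsub, ← ms_sdiff (Gf_mono hUm hWm hστ)]
    apply ms_mono
    intro p hp
    rw [Finset.mem_sdiff, Finset.mem_inter, Finset.mem_inter] at hp
    rw [Finset.mem_sdiff]
    exact ⟨hp.1.1, fun h => hp.2 ⟨h, hp.1.2⟩⟩
  have h3 := vl_sub (qU := qU) (qW := qW) (qV := qV) (κ := κ) σ τ
  rw [h1, sub_self, add_zero] at h3
  have h4 : psi qV (a + kk κ) (vl qU qW qV κ τ) - psi qV (a + kk κ) (vl qU qW qV κ σ) ≤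
      ms (Bf qU κ τ) - ms (Bf qU κ σ) := by
    rcases le_total (vl qU qW qV κ τ) (vl qU qW qV κ σ) with h | h
    · have := psi_mono hV (a + kk κ) h
      linarith
    · have := psi_lip hV (a + kk κ) _ _ h
      linarith
  rw [h1]
  linarith

theorem FI_self (l a : ℕ) : FI qU qW qV κ l a a := by
  unfold FI
  rw [Finset.inter_eq_left.2 (Gf_sub_Bf qU qW κ a)]
  simp

include hUm hWm in
theorem CL_zero {σ τ : ℕ} (h : σ ≤ τ) : CL qU qW qV κ 0 σ τ := by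
  unfold CL th
  have hB := ms_mono (Bf_mono (κ := κ) hUm h)
  have hG := ms_mono (Gf_mono (κ := κ) hUm hWm h)
  simp only [Nat.cast_zero, mul_zero, zero_div, zero_mul]
  linarith

end inv

end Run7.h357.Om
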