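import Mathlib
import Pool.Agent.Run7.h357.OmInv

set_option autoImplicit false

namespace Run7.h357.Om

open Encodable Pool.Agent.Helper227 Pool.Agent.H561R3 Pool.Agent.H561R3.Om MeasureTheory

section main

variable (qU : Str × Str → ℕ → Prop) (qW : Str → ℕ → Prop) (qV : ℕ × IC → ℕ → Prop) (κ : Str)

structure Inv (s : ℕ) : Prop where
  top : la qU qW qV κ s ≤ TT' κ
  i1 : ∀ l l', la qU qW qV κ s ≤ l → l ≤ l' → l' ≤ TT' κ →
    TR qU qW qV κ l s ≤ TR qU qW qV κ l' s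
  i2 : ∀ l, la qU qW qV κ s ≤ l → l ≤ TT' κ → SS qU qW qV κ l s ≤ s
  i3 : ∀ l, la qU qW qV κ s ≤ l → l ≤ TT' κ → (1 / 2 : ℝ) ^ (SS qU qW qV κ l s + κ.length) ≤
    TR qU qW qV κ l s - TR qU qW qV κ 0 (SS qU qW qV κ l s)
  i4 : FI qU qW qV κ (la qU qW qV κ s) (SS qU qW qV κ (la qU qW qV κ s) s) s
  i5 : ∀ l, la qU qW qV κ s ≤ l → l < TT' κ →
    FI qU qW qV κ (l + 1) (SS qU qW qV κ (l + 1) s) (SS qU qW qV κ l s) ∧
    Win qU qW qV κ (SS qU qW qV κ (l + 1) s + kk κ) (SS qU qW qV κ l s)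
      (TR qU qW qV κ l s - TR qU qW qV κ 0 (SS qU qW qV κ l s))

variable {qU qW qV κ}

theorem inv_zero : Inv qU qW qV κ 0 := by
  have hT := TT'_pos κ
  have h0 : la qU qW qV κ 0 = TT' κ := by
    apply la_unique
    · intro j hj
      rw [EE_zero qU qW qV κ hj.le, if_neg hj.ne]
      exact Nat.zero_le _
    · rw [EE_zero qU qW qV κ le_rfl, if_pos rfl, EE_zero qU qW qV κ (Nat.zero_le _),
        if_neg hT.ne]
      exact Nat.zero_lt_one
  refine ⟨h0.le, ?_, ?_, ?_, ?_, ?_⟩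
  · intro l l' h1 h2 h3
    have : l = l' := by omega
    rw [this]
  · intro l h1 h2
    rw [SS_zero qU qW qV κ h2]
  · intro l h1 h2
    have : l = TT' κ := by omega
    rw [this, SS_zero qU qW qV κ le_rfl, TR_top, TR0_zero]
    simp
  · rw [h0, SS_zero qU qW qV κ le_rfl]
    exact FI_self _ _
  · intro l h1 h2
    omega

variable (hUm : ∀ x m n, m ≤ n → qU x m → qU x n) (hWm : ∀ x m n, m ≤ n → qW x m → qW x n)
  (hV : ∀ n, volume (openOf (Vs qV n)) ≤ ENNReal.ofReal ((1 / 2 : ℝ) ^ n))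
  (hB1 : ∀ s, ms (Bf qU κ s) ≤ 1) (hG1 : ∀ s, ms (Gf qU qW κ s) ≤ 1)

include hB1 hG1 in
theorem no_top {s : ℕ} (h : TR qU qW qV κ (TT' κ) s ≤ TR qU qW qV κ 0 s)
    (hC : CL qU qW qV κ (TT' κ) 0 s) : False := by
  rw [TR_top] at h
  unfold CL at hC
  rw [TR0_zero, sub_zero] at hC
  have h1 := ms_nonneg (Bf qU κ 0)
  have h2 := ms_nonneg (Gf qU qW κ 0)
  have h3 := hB1 s
  have h4 := hG1 s
  have h5 : th (TT' κ) = 3 * 2 ^ κ.length := by
    unfold th TT'
    push_cast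
    rw [pow_add]; ring
  rw [h5] at hC
  have h6 : (3 : ℝ) * 2 ^ κ.length * (1 / 2 : ℝ) ^ κ.length = 3 := by
    rw [one_div, inv_pow]; field_simp
  have h7 : (3 : ℝ) * 2 ^ κ.length * (1 / 2 : ℝ) ^ κ.length ≤
      3 * 2 ^ κ.length * TR qU qW qV κ 0 s := by
    apply mul_le_mul_of_nonneg_left h; positivity
  linarith

include hUm hWm hV in
/-- wait -/
theorem inv_wait {s : ℕ} (h : Inv qU qW qV κ s) (ha : am qU qW qV κ s = 0) :
    Inv qU qW qV κ (s + 1) := by
  have hl := la_wait qU qW qV κ ha h.top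
  have hS : ∀ l ≤ TT' κ, SS qU qW qV κ l (s + 1) = SS qU qW qV κ l s := fun l hl' =>
    SS_succ_of_ge qU qW qV κ hl' (Or.inl ha)
  have hT : ∀ l ≤ TT' κ, TR qU qW qV κ l (s + 1) = TR qU qW qV κ l s := fun l hl' =>
    TR_succ_of_eq qU qW qV κ hl' (Or.inl ha)
  have htop := h.top
  refine ⟨hl ▸ h.top, ?_, ?_, ?_, ?_, ?_⟩
  · intro l l' h1 h2 h3
    rw [hl] at h1
    rw [hT l (by omega), hT l' h3]
    exact h.i1 l l' h1 h2 h3
  · intro l h1 h2
    rw [hl] at h1
    rw [hS l h2]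
    exact (h.i2 l h1 h2).trans (Nat.le_succ s)
  · intro l h1 h2
    rw [hl] at h1
    rw [hS l h2, hT l h2]
    exact h.i3 l h1 h2
  · rw [hl, hS _ h.top]
    exact waitstep hUm hWm hV (Nat.le_succ s) h.i4 (hT 0 (Nat.zero_le _))
  · intro l h1 h2
    rw [hl] at h1
    rw [hS (l + 1) (by omega), hS l (by omega), hT l (by omega)]
    exact h.i5 l h1 h2

include hUm hWm hV in
/-- move at a level at least two -/
theorem inv_move {s : ℕ} (h : Inv qU qW qV κ s) (ha : am qU qW qV κ s ≠ 0)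
    (h2 : 2 ≤ la qU qW qV κ s) : Inv qU qW qV κ (s + 1) := by
  have hl := la_move qU qW qV κ ha h2
  have htop := h.top
  set lam := la qU qW qV κ s with hlam
  have hS : ∀ l ≤ TT' κ, lam ≤ l → SS qU qW qV κ l (s + 1) = SS qU qW qV κ l s :=
    fun l hl' hl'' => SS_succ_of_ge qU qW qV κ hl' (Or.inr hl'')
  have hS1 : SS qU qW qV κ (lam - 1) (s + 1) = s :=
    SS_succ_of_lt qU qW qV κ ha (by omega)
  have hT : ∀ l ≤ TT' κ, l + 1 ≠ lam → TR qU qW qV κ l (s + 1) = TR qU qW qV κ l s :=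
    fun l hl' h' => TR_succ_of_eq qU qW qV κ hl' (Or.inr h')
  have hT1 : TR qU qW qV κ (lam - 1) (s + 1) = TR qU qW qV κ 0 s + rho qU qW qV κ s :=
    TR_succ_of_ne qU qW qV κ (by omega) ha (by omega)
  refine ⟨by omega, ?_, ?_, ?_, ?_, ?_⟩
  · intro l l' h1 h2 h3
    rw [hl] at h1
    have hge : ∀ m, lam ≤ m → m ≤ TT' κ →
        TR qU qW qV κ 0 s + rho qU qW qV κ s ≤ TR qU qW qV κ m s := fun m hm1 hm2 =>
      (TR_rho_le qU qW qV κ ha).trans (h.i1 _ _ le_rfl hm1 hm2)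
    rcases Nat.eq_or_lt_of_le h1 with h4 | h4
    · rcases Nat.eq_or_lt_of_le (h4 ▸ h2 : lam - 1 ≤ l') with h5 | h5
      · rw [← h4, ← h5]
      · rw [← h4, hT1, hT l' h3 (by omega)]
        exact hge l' (by omega) h3
    · rw [hT l (by omega) (by omega), hT l' h3 (by omega)]
      exact h.i1 l l' (by omega) h2 h3
  · intro l h1 h3
    rw [hl] at h1
    rcases Nat.eq_or_lt_of_le h1 with h4 | h4
    · rw [← h4, hS1]; exact Nat.le_succ s
    · rw [hS l h3 (by omega)]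
      exact (h.i2 l (by omega) h3).trans (Nat.le_succ s)
  · intro l h1 h3
    rw [hl] at h1
    rcases Nat.eq_or_lt_of_le h1 with h4 | h4
    · rw [← h4, hS1, hT1]
      have := rho_pos qU qW qV κ ha
      linarith
    · rw [hS l h3 (by omega), hT l h3 (by omega)]
      exact h.i3 l (by omega) h3
  · rw [hl, hS1]
    exact waitstep hUm hWm hV (Nat.le_succ s) (FI_self _ _) (hT 0 (Nat.zero_le _) (by omega))
  · intro l h1 h3
    rw [hl] at h1
    rcases Nat.eq_or_lt_of_le h1 with h4 | h4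
    · have h5 : l + 1 = lam := by omega
      have h6 : l = lam - 1 := by omega
      rw [h5, hS lam (by omega) le_rfl, h6, hS1, hT1]
      refine ⟨h.i4, ?_⟩
      have := win_am hV ha
      rwa [add_sub_cancel_left]
    · rw [hS l (by omega) (by omega), hS (l + 1) (by omega) (by omega), hT l (by omega) (by omega)]
      exact h.i5 l (by omega) h3

include hUm hWm hV hB1 hG1 in
/-- move at level one -/
theorem inv_spend {s : ℕ} (h : Inv qU qW qV κ s) (ha : am qU qW qV κ s ≠ 0)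
    (h2 : la qU qW qV κ s = 1) : Inv qU qW qV κ (s + 1) := by
  have htop := h.top
  have hT1 := TT'_pos κ
  have hS : ∀ l ≤ TT' κ, 1 ≤ l → SS qU qW qV κ l (s + 1) = SS qU qW qV κ l s :=
    fun l hl' hl'' => SS_succ_of_ge qU qW qV κ hl' (Or.inr (by omega))
  have hT : ∀ l ≤ TT' κ, 1 ≤ l → TR qU qW qV κ l (s + 1) = TR qU qW qV κ l s :=
    fun l hl' h' => TR_succ_of_eq qU qW qV κ hl' (Or.inr (by omega))
  have hT0 : TR qU qW qV κ 0 (s + 1) = TR qU qW qV κ 0 s + rho qU qW qV κ s :=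
    TR_succ_of_ne qU qW qV κ (by omega) ha (by omega)
  have hge : ∀ m, 1 ≤ m → m ≤ TT' κ → TR qU qW qV κ 0 (s + 1) ≤ TR qU qW qV κ m s := by
    intro m hm1 hm2
    rw [hT0]
    exact (TR_rho_le qU qW qV κ ha).trans (h.i1 _ _ le_rfl (by omega) hm2)
  -- completion of a level
  have hcomp : ∀ l, l + 1 ≤ TT' κ → TR qU qW qV κ (l + 1) s ≤ TR qU qW qV κ 0 (s + 1) →
      FI qU qW qV κ (l + 1) (SS qU qW qV κ (l + 1) s) (s + 1) →
      CL qU qW qV κ (l + 1) (SS qU qW qV κ (l + 1) s) (s + 1) := by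
    intro l h3 h4 h5
    refine complete hUm hWm hV ((h.i2 _ (by omega) h3).trans (Nat.le_succ s)) h5 ?_
    have := h.i3 (l + 1) (by omega) h3
    linarith
  have hFI : ∀ l, l + 1 ≤ TT' κ →
      (∀ j, 1 ≤ j → j < l + 1 → TR qU qW qV κ j s ≤ TR qU qW qV κ 0 (s + 1)) →
      FI qU qW qV κ (l + 1) (SS qU qW qV κ (l + 1) s) (s + 1) := by
    intro l
    induction l with
    | zero =>
      intro h3 _
      have h4 := h.i4
      rw [h2] at h4
      have h5 := win_am hV ha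
      rw [h2] at h5
      refine substep hUm hWm hV (Nat.le_succ s) h4 h5 (CL_zero hUm hWm (Nat.le_succ s)) ?_ hT1
      rw [hT0]; linarith
    | succ l ih =>
      intro h3 h4
      have h5 := ih (by omega) (fun j h6 h7 => h4 j h6 (by omega))
      have h6 := h4 (l + 1) (by omega) (by omega)
      have h7 := hcomp l (by omega) h6 h5
      obtain ⟨h8, h9⟩ := h.i5 (l + 1) (by omega) (by omega)
      refine substep hUm hWm hV ((h.i2 _ (by omega) (by omega)).trans (Nat.le_succ s)) h8 h9 h7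
        ?_ (by omega)
      have := hge (l + 1) (by omega) (by omega)
      linarith
  set lam' := la qU qW qV κ (s + 1) with hlam'
  have hpos : 1 ≤ lam' := la_pos qU qW qV κ (s + 1)
  have hbel : ∀ j, 1 ≤ j → j < lam' → TR qU qW qV κ j s ≤ TR qU qW qV κ 0 (s + 1) := by
    intro j h3 h4
    have h5 := la_le qU qW qV κ (s + 1)
    have h6 := of_lt_la qU qW qV κ h4
    rw [← TR_le_iff, hT j (by omega) h3] at h6
    exact h6
  have htop' : lam' ≤ TT' κ := by
    by_contra hcon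
    obtain ⟨T0, hT0'⟩ : ∃ T0, TT' κ = T0 + 1 := ⟨TT' κ - 1, by omega⟩
    have h3 := hbel (TT' κ) (by omega) (by omega)
    have h4 := hFI T0 (by omega) (fun j h5 h6 => hbel j h5 (by omega))
    rw [← hT0'] at h4
    have h5 := hcomp T0 (by omega) (by rw [← hT0']; exact h3) (by rw [← hT0']; exact h4)
    rw [← hT0', SS_top] at h5
    refine no_top hB1 hG1 ?_ h5
    rw [hT _ le_rfl (by omega)]
    exact h3
  refine ⟨htop', ?_, ?_, ?_, ?_, ?_⟩
  · intro l l' h3 h4 h5
    rw [hT l (by omega) (by omega), hT l' h5 (by omega)]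
    exact h.i1 l l' (by omega) h4 h5
  · intro l h3 h4
    rw [hS l h4 (by omega)]
    exact (h.i2 l (by omega) h4).trans (Nat.le_succ s)
  · intro l h3 h4
    rw [hS l h4 (by omega), hT l h4 (by omega)]
    exact h.i3 l (by omega) h4
  · rw [hS _ htop' hpos]
    obtain ⟨m, hm⟩ : ∃ m, lam' = m + 1 := ⟨lam' - 1, by omega⟩
    have := hFI m (by omega) (fun j h5 h6 => hbel j h5 (by omega))
    rw [← hm] at this
    exact this
  · intro l h3 h4
    rw [hS l (by omega) (by omega), hS (l + 1) (by omega) (by omega), hT l (by omega) (by omega)]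
    exact h.i5 l (by omega) h4

include hUm hWm hV hB1 hG1 in
theorem inv_all (s : ℕ) : Inv qU qW qV κ s := by
  induction s with
  | zero => exact inv_zero
  | succ s ih =>
    by_cases ha : am qU qW qV κ s = 0
    · exact inv_wait hUm hWm hV ih ha
    · by_cases h2 : 2 ≤ la qU qW qV κ s
      · exact inv_move hUm hWm hV ih ha h2
      · have := la_pos qU qW qV κ s
        exact inv_spend hUm hWm hV hB1 hG1 ih ha (by omega)

end main

end Run7.h357.Om
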