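import Mathlib
import Pool.Agent.Run7.h357.OmMain

set_option autoImplicit false

namespace Run7.h357.Om

open Encodable Pool.Agent.Helper227 Pool.Agent.H561R3 Pool.Agent.H561R3.Om MeasureTheory
open Filter Topology

section term

variable {qU : Str × Str → ℕ → Prop} {qW : Str → ℕ → Prop} {qV : ℕ × IC → ℕ → Prop} {κ : Str}

theorem TR0_lt {s : ℕ} (h : Inv qU qW qV κ s) :
    TR qU qW qV κ 0 s < (1 / 2 : ℝ) ^ κ.length := by
  have h1 := la_spec qU qW qV κ h.top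
  rw [← TR_lt_iff] at h1
  have h2 := h.i1 _ _ le_rfl h.top le_rfl
  rw [TR_top] at h2
  exact lt_of_lt_of_le h1 h2

theorem next_control {lam s s' : ℕ} (hlam : 1 ≤ lam) (hlT : lam ≤ TT' κ) (hss : s < s')
    (h1 : la qU qW qV κ s = lam) (h2 : la qU qW qV κ s' = lam)
    (h3 : ∀ t, s < t → t < s' → la qU qW qV κ t ≠ lam) (ha : am qU qW qV κ s ≠ 0) :
    TR qU qW qV κ 0 s + rho qU qW qV κ s ≤ TR qU qW qV κ 0 s' := by
  have key : ∀ t, s + 1 ≤ t → t ≤ s' →
      TR qU qW qV κ (lam - 1) t = TR qU qW qV κ 0 s + rho qU qW qV κ s := by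
    intro t ht
    induction t, ht using Nat.le_induction with
    | base =>
      intro _
      exact TR_succ_of_ne qU qW qV κ (by omega) ha (by omega)
    | succ t ht ih =>
      intro ht2
      rw [TR_succ_of_eq qU qW qV κ (by omega) (Or.inr _), ih (by omega)]
      have := h3 t (by omega) (by omega)
      omega
  have h4 := key s' (by omega) le_rfl
  have h5 := of_lt_la qU qW qV κ (l := lam - 1) (s := s') (by omega)
  rw [← TR_le_iff, h4] at h5
  exact h5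

theorem exists_lam (hall : ∀ s, la qU qW qV κ s ≤ TT' κ) :
    ∃ lam, 1 ≤ lam ∧ lam ≤ TT' κ ∧ (∃ s1, ∀ s ≥ s1, la qU qW qV κ s ≤ lam) ∧
      ∀ s0, ∃ s ≥ s0, la qU qW qV κ s = lam := by
  classical
  have hex : ∃ l, ∃ s1, ∀ s ≥ s1, la qU qW qV κ s ≤ l := ⟨TT' κ, 0, fun s _ => hall s⟩
  set lam := Nat.find hex with hlam
  obtain ⟨s1, hs1⟩ := Nat.find_spec hex
  have hpos : 1 ≤ lam := (la_pos qU qW qV κ s1).trans (hs1 s1 le_rfl)
  refine ⟨lam, hpos, Nat.find_min' hex ⟨0, fun s _ => hall s⟩, ⟨s1, hs1⟩, ?_⟩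
  intro s0
  have h1 := Nat.find_min hex (m := lam - 1) (by omega)
  push Not at h1
  obtain ⟨s, hs, h2⟩ := h1 (max s0 s1)
  refine ⟨s, (le_max_left _ _).trans hs, ?_⟩
  have h3 := hs1 s ((le_max_right _ _).trans hs)
  omega

theorem rho_big {s lam : ℕ} (h1 : la qU qW qV κ s = lam)
    {c : ℕ} (hc : c = SS qU qW qV κ lam s + kk κ) {t : IC} (ht : t ∈ cand IC s)
    (hq : qV (c, t) s) (h2 : ratOf t.1 < vl qU qW qV κ s) {δ : ℝ} (hδ : 0 < δ)
    (h3 : vl qU qW qV κ s + δ ≤ ratOf t.2) (hs : (1 / 2 : ℝ) ^ s ≤ δ / 2 ^ kk κ / 2) :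
    TR qU qW qV κ lam s - TR qU qW qV κ 0 s ≤ rho qU qW qV κ s ∨
      δ / 2 ^ kk κ / 2 ≤ rho qU qW qV κ s := by
  set x : ℝ := δ / 2 ^ kk κ * 2 ^ (s + κ.length) with hx
  have hx0 : 0 ≤ x := by positivity
  have hP : (0 : ℝ) < 2 ^ (s + κ.length) := by positivity
  have hact : ∀ m : ℕ, (m : ℝ) ≤ x → Act' qU qW qV κ s (EE qU qW qV κ 0 s)
      (SS qU qW qV κ (la qU qW qV κ s) s + kk κ) m := by
    intro m hm
    rw [h1, ← hc]
    refine act_of ht hq h2 ?_
    have h4 : (2 : ℝ) ^ kk κ * ((m : ℝ) / 2 ^ (s + κ.length)) ≤ δ := by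
      have h5 : (m : ℝ) / 2 ^ (s + κ.length) ≤ δ / 2 ^ kk κ := by
        rw [div_le_iff₀ hP]; exact hm
      calc (2 : ℝ) ^ kk κ * ((m : ℝ) / 2 ^ (s + κ.length)) ≤ 2 ^ kk κ * (δ / 2 ^ kk κ) :=
            mul_le_mul_of_nonneg_left h5 (by positivity)
        _ = δ := by field_simp
    have h6 : vl qU qW qV κ s = ms (Bf qU κ s) - ms (Gf qU qW κ s) +
      (EE qU qW qV κ 0 s : ℝ) / 2 ^ (s + κ.length) := rfl
    rw [← h6]
    linarith
  have hle := fun m hm1 hm2 => le_am qU qW qV κ (s := s) (r := m) hm1 (hact m hm2)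
  rcases le_total ((EE qU qW qV κ lam s - EE qU qW qV κ 0 s : ℕ) : ℝ) x with h4 | h4
  · left
    have h5 := hle (EE qU qW qV κ lam s - EE qU qW qV κ 0 s) (by rw [h1]) h4
    have h6 : (EE qU qW qV κ lam s : ℝ) - EE qU qW qV κ 0 s ≤ am qU qW qV κ s := by
      have : EE qU qW qV κ lam s ≤ am qU qW qV κ s + EE qU qW qV κ 0 s := by omega
      have h7 : (EE qU qW qV κ lam s : ℝ) ≤ am qU qW qV κ s + EE qU qW qV κ 0 s := by
        exact_mod_cast this
      linarith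
    unfold TR rho
    rw [← sub_div]
    gcongr
  · right
    have h5 := hle ⌊x⌋₊ (by
      rw [h1]
      have : ((⌊x⌋₊ : ℕ) : ℝ) ≤ ((EE qU qW qV κ lam s - EE qU qW qV κ 0 s : ℕ) : ℝ) :=
        (Nat.floor_le hx0).trans h4
      exact_mod_cast this) (Nat.floor_le hx0)
    have h6 : x - 1 ≤ am qU qW qV κ s := by
      have h7 := (Nat.sub_one_lt_floor x).le
      have h8 : ((⌊x⌋₊ : ℕ) : ℝ) ≤ am qU qW qV κ s := by exact_mod_cast h5
      linarith
    unfold rho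
    rw [le_div_iff₀ hP]
    refine le_trans ?_ h6
    have h9 : (1 : ℝ) ≤ δ / 2 ^ kk κ / 2 * 2 ^ (s + κ.length) := by
      calc (1 : ℝ) = (1 / 2 : ℝ) ^ s * 2 ^ s := by rw [← mul_pow]; norm_num
        _ ≤ δ / 2 ^ kk κ / 2 * 2 ^ (s + κ.length) := by
          refine mul_le_mul hs ?_ (by positivity) (by positivity)
          exact pow_le_pow_right₀ (by norm_num) (by omega)
    rw [hx]
    linarith

theorem not_all_mem (hinv : ∀ s, Inv qU qW qV κ s)
    (hVm : ∀ x m n, m ≤ n → qV x m → qV x n) {v : ℝ}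
    (hlim : Tendsto (vl qU qW qV κ) atTop (𝓝 v)) (hv : ∀ c, v ∈ openOf (Vs qV c)) : False := by
  obtain ⟨lam, hpos, hlT, ⟨s1, hs1⟩, hinf⟩ := exists_lam (fun s => (hinv s).top)
  -- constants
  have hS : ∀ s ≥ s1, SS qU qW qV κ lam s = SS qU qW qV κ lam s1 := by
    intro s hs
    induction s, hs using Nat.le_induction with
    | base => rfl
    | succ s hs ih => rw [SS_succ_of_ge qU qW qV κ hlT (Or.inr (hs1 s hs)), ih]
  have hT : ∀ s ≥ s1, TR qU qW qV κ lam s = TR qU qW qV κ lam s1 := by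
    intro s hs
    induction s, hs using Nat.le_induction with
    | base => rfl
    | succ s hs ih =>
      rw [TR_succ_of_eq qU qW qV κ hlT (Or.inr (by have := hs1 s hs; omega)), ih]
  set c := SS qU qW qV κ lam s1 + kk κ with hc
  obtain ⟨t, ⟨s2, hs2⟩, h1, h2⟩ := hv c
  set δ : ℝ := (ratOf t.2 - v) / 2 with hδ
  have hδ0 : 0 < δ := by rw [hδ]; linarith
  set δ' : ℝ := δ / 2 ^ kk κ / 2 with hδ'
  have hδ'0 : 0 < δ' := by positivity
  -- the supremum
  have hbdd : BddAbove (Set.range (TR qU qW qV κ 0)) :=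
    ⟨(1 / 2 : ℝ) ^ κ.length, by rintro _ ⟨s, rfl⟩; exact (TR0_lt (hinv s)).le⟩
  have hsup := tendsto_atTop_ciSup (TR0_mono qU qW qV κ) hbdd
  set σ := ⨆ s, TR qU qW qV κ 0 s with hσ
  have hle : ∀ s, TR qU qW qV κ 0 s ≤ σ := fun s => le_ciSup hbdd s
  have e1 : ∀ᶠ s in atTop, σ - δ' < TR qU qW qV κ 0 s :=
    hsup.eventually (lt_mem_nhds (by linarith))
  have e2 : ∀ᶠ s in atTop, ratOf t.1 < vl qU qW qV κ s := hlim.eventually (lt_mem_nhds h1)
  have e3 : ∀ᶠ s in atTop, vl qU qW qV κ s < v + δ :=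
    hlim.eventually (gt_mem_nhds (by linarith))
  have e4 : ∀ᶠ s : ℕ in atTop, (1 / 2 : ℝ) ^ s < δ' :=
    (tendsto_pow_atTop_nhds_zero_of_lt_one (by norm_num) (by norm_num)).eventually
      (gt_mem_nhds hδ'0)
  have e5 : ∀ᶠ s : ℕ in atTop, s1 ≤ s ∧ s2 ≤ s ∧ encode t < s := by
    filter_upwards [eventually_ge_atTop (max s1 (max s2 (encode t + 1)))] with s hs
    simp only [max_le_iff] at hs
    omega
  obtain ⟨s0, hs0⟩ := eventually_atTop.1 (e1.and (e2.and (e3.and (e4.and e5))))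
  obtain ⟨s, hs, hla⟩ := hinf s0
  obtain ⟨f1, f2, f3, f4, f5, f6, f7⟩ := hs0 s hs
  have hr := rho_big (qU := qU) (qW := qW) (qV := qV) (κ := κ) hla
    (by rw [hS s f5]) (mem_cand_of_encode f7) (hVm _ _ _ f6 hs2) f2 hδ0
    (by rw [hδ] at f3 ⊢; linarith) f4.le
  -- next control stage
  classical
  have hex : ∃ s', s + 1 ≤ s' ∧ la qU qW qV κ s' = lam := hinf (s + 1)
  set s' := Nat.find hex with hs'
  obtain ⟨g1, g2⟩ := Nat.find_spec hex
  have g3 : ∀ u, s < u → u < s' → la qU qW qV κ u ≠ lam := fun u hu1 hu2 hu3 =>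
    Nat.find_min hex hu2 ⟨hu1, hu3⟩
  have hne : am qU qW qV κ s ≠ 0 := by
    intro h0
    have h3 : rho qU qW qV κ s = 0 := by unfold rho; rw [h0]; simp
    rw [h3] at hr
    rcases hr with hr | hr
    · have h4 := la_spec qU qW qV κ (s := s) (by omega)
      rw [← TR_lt_iff, hla] at h4
      linarith
    · linarith
  have h5 := next_control hpos hlT g1 hla g2 g3 hne
  rcases hr with hr | hr
  · have g2' : la qU qW qV κ s' = lam := g2
    have g1' : s + 1 ≤ s' := g1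
    have h6 := la_spec qU qW qV κ (s := s') (g2'.le.trans hlT)
    rw [← TR_lt_iff, g2', hT s' (by omega), ← hT s f5] at h6
    linarith
  · have h6 := hle s'
    linarith

end term

end Run7.h357.Om
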