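import Mathlib
import Pool.Agent.Run7.h357.OmTerm

set_option autoImplicit false

namespace Run7.h357.Om

open Encodable Pool.Agent.Helper227 Pool.Agent.H561R3 Pool.Agent.H561R3.Om MeasureTheory
open Filter Topology

section bn

/-- binary value -/
def bn (q : Str) : ℕ := q.foldl (fun a b => 2 * a + (if b then 1 else 0)) 0

theorem bn_concat (q : Str) (b : Bool) : bn (q ++ [b]) = 2 * bn q + (if b then 1 else 0) := by
  unfold bn
  rw [List.foldl_append]; rfl

theorem bn_append (q r : Str) : bn (q ++ r) = bn q * 2 ^ r.length + bn r := by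
  induction r using List.reverseRecOn with
  | nil => simp [bn]
  | append_singleton r b ih =>
    rw [← List.append_assoc, bn_concat, ih, bn_concat]
    simp only [List.length_append, List.length_singleton]
    ring

theorem bn_lt (q : Str) : bn q < 2 ^ q.length := by
  induction q using List.reverseRecOn with
  | nil => simp [bn]
  | append_singleton q b ih =>
    rw [bn_concat]
    simp only [List.length_append, List.length_singleton, pow_succ]
    split_ifs <;> omega

theorem bn_inj : ∀ (x y : Str), x.length = y.length → bn x = bn y → x = y := by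
  intro x
  induction x using List.reverseRecOn with
  | nil => intro y h _; simpa using h.symm
  | append_singleton x b ih =>
    intro y h1 h2
    induction y using List.reverseRecOn with
    | nil => simp at h1
    | append_singleton y c _ =>
      rw [bn_concat, bn_concat] at h2
      simp only [List.length_append, List.length_singleton, Nat.add_right_cancel_iff] at h1
      have h3 : b = c := by
        cases b <;> cases c <;> simp_all <;> omega
      subst h3
      rw [ih y h1 (by omega)]

theorem pr_bn : Primrec bn := by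
  unfold bn
  refine Primrec.list_foldl (f := fun q : Str => q) (g := fun _ => 0)
    (h := fun _ (x : ℕ × Bool) => 2 * x.1 + (if x.2 then 1 else 0)) Primrec.id
    (Primrec.const 0) ?_
  refine Primrec.nat_add.comp (Primrec.nat_mul.comp (Primrec.const 2)
    (Primrec.fst.comp Primrec.snd)) ?_
  refine Primrec.ite ?_ (Primrec.const 1) (Primrec.const 0)
  exact Primrec.eq.comp (Primrec.snd.comp Primrec.snd) (Primrec.const true)

theorem image_bn (n : ℕ) : (FS n).image bn = Finset.range (2 ^ n) := by
  apply Finset.eq_of_subset_of_card_le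
  · intro m hm
    rw [Finset.mem_image] at hm
    obtain ⟨x, hx, rfl⟩ := hm
    rw [Finset.mem_range]
    have := bn_lt x
    rwa [mem_FS.1 hx] at this
  · rw [Finset.card_image_of_injOn, card_FS, Finset.card_range]
    intro x hx y hy h
    exact bn_inj x y ((mem_FS.1 hx).trans (mem_FS.1 hy).symm) h

theorem card_bn {n a b : ℕ} (hb : b ≤ 2 ^ n) :
    ((FS n).filter (fun q => a ≤ bn q ∧ bn q < b)).card = b - a := by
  rw [← Nat.card_Ico]
  have h1 : ((FS n).filter (fun q => a ≤ bn q ∧ bn q < b)).image bn = Finset.Ico a b := by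
    ext m
    rw [Finset.mem_image, Finset.mem_Ico]
    constructor
    · rintro ⟨x, hx, rfl⟩
      exact (Finset.mem_filter.1 hx).2
    · rintro ⟨h1, h2⟩
      have h3 : m ∈ (FS n).image bn := by
        rw [image_bn, Finset.mem_range]; omega
      rw [Finset.mem_image] at h3
      obtain ⟨x, hx, rfl⟩ := h3
      exact ⟨x, Finset.mem_filter.2 ⟨hx, h1, h2⟩, rfl⟩
  rw [← h1, Finset.card_image_of_injOn]
  intro x hx y hy h
  have hx' := (Finset.mem_filter.1 (Finset.mem_coe.1 hx)).1
  have hy' := (Finset.mem_filter.1 (Finset.mem_coe.1 hy)).1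
  exact bn_inj x y ((mem_FS.1 hx').trans (mem_FS.1 hy').symm) h

end bn

section eta

/-- self-delimiting code of a string -/
def eta (σ : Str) : Str := List.replicate σ.length true ++ false :: σ

theorem eta_prefix {σ τ : Str} : eta σ <+: eta τ → σ = τ := by
  unfold eta
  have key : ∀ (m n : ℕ) (x y : Str), List.replicate m true ++ false :: x <+:
      List.replicate n true ++ false :: y → m = n ∧ x <+: y := by
    intro m
    induction m with
    | zero =>
      intro n x y h
      cases n with
      | zero =>
        simp only [List.replicate_zero, List.nil_append, List.cons_prefix_cons] at h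
        exact ⟨rfl, h.2⟩
      | succ n =>
        rw [List.replicate_succ] at h
        simp only [List.replicate_zero, List.nil_append, List.cons_append,
          List.cons_prefix_cons] at h
        exact absurd h.1 (by simp)
    | succ m ih =>
      intro n x y h
      cases n with
      | zero =>
        rw [List.replicate_succ] at h
        simp only [List.replicate_zero, List.nil_append, List.cons_append,
          List.cons_prefix_cons] at h
        exact absurd h.1 (by simp)
      | succ n =>
        rw [List.replicate_succ, List.replicate_succ] at h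
        simp only [List.cons_append, List.cons_prefix_cons] at h
        obtain ⟨h1, h2⟩ := ih n x y h.2
        exact ⟨by omega, h2⟩
  intro h
  obtain ⟨h1, h2⟩ := key _ _ _ _ h
  exact h2.eq_of_length h1

theorem eta_append {σ τ q r : Str} (h : eta σ ++ q = eta τ ++ r) : σ = τ ∧ q = r := by
  have h1 : eta σ <+: eta τ ++ r := h ▸ List.prefix_append _ _
  rcases List.prefix_or_prefix_of_prefix h1 (List.prefix_append (eta τ) r) with h2 | h2
  · have h3 := eta_prefix h2
    subst h3
    exact ⟨rfl, List.append_cancel_left h⟩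
  · have h3 := eta_prefix h2
    subst h3
    exact ⟨rfl, List.append_cancel_left h⟩

theorem eta_append_prefix {σ τ q r : Str} (h : eta σ ++ q <+: eta τ ++ r) : σ = τ ∧ q <+: r := by
  have h1 : eta σ <+: eta τ ++ r := (List.prefix_append _ _).trans h
  rcases List.prefix_or_prefix_of_prefix h1 (List.prefix_append (eta τ) r) with h2 | h2
  · have h3 := eta_prefix h2
    subst h3
    exact ⟨rfl, (List.prefix_append_right_inj _).1 h⟩
  · have h3 := eta_prefix h2
    subst h3
    exact ⟨rfl, (List.prefix_append_right_inj _).1 h⟩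

theorem pr_replicate : Primrec (fun n : ℕ => List.replicate n true) := by
  refine (Primrec.nat_rec₁ ([] : List Bool) (f := fun _ L => true :: L) ?_).of_eq ?_
  · exact Primrec.list_cons.comp (Primrec.const true) Primrec.snd
  · intro n
    induction n with
    | zero => rfl
    | succ n ih => rw [List.replicate_succ, ← ih]

theorem pr_eta : Primrec eta := by
  unfold eta
  exact Primrec.list_append.comp (pr_replicate.comp Primrec.list_length)
    (Primrec.list_cons.comp (Primrec.const false) Primrec.id)

end eta

section inD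

variable (qU : Str × Str → ℕ → Prop) (qW : Str → ℕ → Prop) (qV : ℕ × IC → ℕ → Prop)

/-- the strings on which the own machine is defined -/
def inD (κ q : Str) : Prop :=
  2 * EE qU qW qV κ 0 (q.length - 1) ≤ bn q ∧ bn q < EE qU qW qV κ 0 q.length

def PD (p : Str) : Prop :=
  ∃ σ ∈ upTo p.length, ∃ q ∈ upTo p.length, p = eta σ ++ q ∧ inD qU qW qV (σ ++ eta σ) q

variable {qU qW qV}

theorem pr_inD (hU : PrimrecRel qU) (hW : PrimrecRel qW) (hV : PrimrecRel qV) :
    PrimrecPred fun x : Str × Str => inD qU qW qV x.1 x.2 := by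
  unfold inD EE
  have hST := pr_ST' hU hW hV
  have hl : Primrec fun x : Str × Str => x.2.length := Primrec.list_length.comp Primrec.snd
  refine PrimrecPred.and ?_ ?_
  · refine Primrec.nat_le.comp (Primrec.nat_mul.comp (Primrec.const 2) ?_)
      (pr_bn.comp Primrec.snd)
    exact pr_gE (hST.comp Primrec.fst (Primrec.nat_sub.comp hl (Primrec.const 1)))
      (Primrec.const 0)
  · refine Primrec.nat_lt.comp (pr_bn.comp Primrec.snd) ?_
    exact pr_gE (hST.comp Primrec.fst hl) (Primrec.const 0)

theorem pr_PD (hU : PrimrecRel qU) (hW : PrimrecRel qW) (hV : PrimrecRel qV) :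
    PrimrecPred fun p : Str => PD qU qW qV p := by
  unfold PD
  refine PP.ex_mem (α := Str) (f := fun p => upTo p.length) (p := fun p σ =>
    ∃ q ∈ upTo p.length, p = eta σ ++ q ∧ inD qU qW qV (σ ++ eta σ) q) ?_
    (pr_upTo.comp Primrec.list_length)
  refine PP.ex_mem (α := Str × Str) (f := fun x => upTo x.1.length) (p := fun x q =>
    x.1 = eta x.2 ++ q ∧ inD qU qW qV (x.2 ++ eta x.2) q) ?_
    (pr_upTo.comp (Primrec.list_length.comp Primrec.fst))
  have e1 : Primrec fun y : (Str × Str) × Str => y.1.2 := Primrec.snd.comp Primrec.fst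
  refine PrimrecPred.and ?_ ?_
  · exact Primrec.eq.comp (Primrec.fst.comp Primrec.fst)
      (Primrec.list_append.comp (pr_eta.comp e1) Primrec.snd)
  · exact PrimrecPred.comp (p := fun x : Str × Str => inD qU qW qV x.1 x.2)
      (f := fun y : (Str × Str) × Str => (y.1.2 ++ eta y.1.2, y.2)) (pr_inD hU hW hV)
      ((Primrec.list_append.comp e1 (pr_eta.comp e1)).pair Primrec.snd)

theorem EE_grow (κ : Str) (s : ℕ) : 2 * EE qU qW qV κ 0 s ≤ EE qU qW qV κ 0 (s + 1) := by
  rw [EE_succ qU qW qV κ s (Nat.zero_le _)]
  split_ifs <;> omega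

theorem EE_grow_pow (κ : Str) (s d : ℕ) :
    2 ^ d * EE qU qW qV κ 0 s ≤ EE qU qW qV κ 0 (s + d) := by
  induction d with
  | zero => simp
  | succ d ih =>
    have := EE_grow (qU := qU) (qW := qW) (qV := qV) κ (s + d)
    calc 2 ^ (d + 1) * EE qU qW qV κ 0 s = 2 * (2 ^ d * EE qU qW qV κ 0 s) := by ring
      _ ≤ 2 * EE qU qW qV κ 0 (s + d) := by omega
      _ ≤ EE qU qW qV κ 0 (s + (d + 1)) := this

theorem inD_prefix {κ q r : Str} (hq : inD qU qW qV κ q) (hr : inD qU qW qV κ r)
    (h : q <+: r) : q = r := by
  obtain ⟨u, rfl⟩ := h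
  by_contra hne
  have hu : u ≠ [] := by
    intro h0; subst h0; simp at hne
  have hul : 0 < u.length := List.length_pos_iff.2 hu
  obtain ⟨h1, _⟩ := hr
  obtain ⟨_, h2⟩ := hq
  rw [bn_append] at h1
  have h3 := bn_lt u
  have h4 := EE_grow_pow (qU := qU) (qW := qW) (qV := qV) κ q.length (u.length - 1)
  have h5 : (q ++ u).length - 1 = q.length + (u.length - 1) := by
    rw [List.length_append]; omega
  rw [h5] at h1
  have h6 : 2 ^ u.length * EE qU qW qV κ 0 q.length ≤
      2 * EE qU qW qV κ 0 (q.length + (u.length - 1)) := by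
    calc 2 ^ u.length * EE qU qW qV κ 0 q.length
        = 2 * (2 ^ (u.length - 1) * EE qU qW qV κ 0 q.length) := by
          rw [← mul_assoc, ← pow_succ']
          congr 2
          omega
      _ ≤ _ := by omega
  have h7 : (bn q + 1) * 2 ^ u.length ≤ EE qU qW qV κ 0 q.length * 2 ^ u.length :=
    Nat.mul_le_mul_right _ h2
  nlinarith

open Classical in
/-- the machine -/
noncomputable def NM (qU : Str × Str → ℕ → Prop) (qW : Str → ℕ → Prop)
    (qV : ℕ × IC → ℕ → Prop) (x0 : Str) (p : Str) : Part Str :=
  bif decide (PD qU qW qV p) then Part.some x0 else Part.none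

theorem NM_dom {x0 p : Str} : (NM qU qW qV x0 p).Dom ↔ PD qU qW qV p := by
  unfold NM
  by_cases h : PD qU qW qV p
  · simp [h]
  · simp [h]

theorem mem_NM {x0 p x : Str} : x ∈ NM qU qW qV x0 p ↔ PD qU qW qV p ∧ x = x0 := by
  unfold NM
  by_cases h : PD qU qW qV p
  · simp [h]
  · simp [h]

theorem PD_iff {σ q : Str} : PD qU qW qV (eta σ ++ q) ↔ inD qU qW qV (σ ++ eta σ) q := by
  constructor
  · rintro ⟨τ, _, r, _, h1, h2⟩
    obtain ⟨rfl, rfl⟩ := eta_append h1
    exact h2
  · intro h
    refine ⟨σ, mem_upTo.2 ?_, q, mem_upTo.2 ?_, rfl, h⟩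
    · unfold eta; simp only [List.length_append, List.length_replicate, List.length_cons]; omega
    · simp only [List.length_append]; omega

theorem pf_NM (hU : PrimrecRel qU) (hW : PrimrecRel qW) (hV : PrimrecRel qV) (x0 : Str) :
    PFMachine (NM qU qW qV x0) := by
  classical
  constructor
  · unfold NM
    refine Partrec.cond (c := fun p => decide (PD qU qW qV p)) (f := fun _ => Part.some x0)
      (g := fun _ => Part.none) ?_ ?_ Partrec.none
    · have := (pr_PD hU hW hV).decide
      refine Primrec.to_comp ?_
      convert this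
    · exact (Computable.const x0).partrec
  · intro p r hp hr h
    rw [NM_dom] at hp hr
    obtain ⟨σ, _, q, _, rfl, hq⟩ := hp
    obtain ⟨τ, _, u, _, rfl, hu⟩ := hr
    obtain ⟨rfl, h2⟩ := eta_append_prefix h
    rw [inD_prefix hq hu h2]

open Classical in
/-- own strings up to length `s` -/
noncomputable def Of (qU : Str × Str → ℕ → Prop) (qW : Str → ℕ → Prop)
    (qV : ℕ × IC → ℕ → Prop) (κ : Str) (s : ℕ) : Finset Str :=
  (upTo s).toFinset.filter (fun q => inD qU qW qV κ q)

theorem mem_Of {κ : Str} {s : ℕ} {q : Str} :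
    q ∈ Of qU qW qV κ s ↔ q.length ≤ s ∧ inD qU qW qV κ q := by
  simp [Of, mem_upTo]

theorem ms_Of {κ : Str} (hE : ∀ s, EE qU qW qV κ 0 s ≤ 2 ^ s) (s : ℕ) :
    ms (Of qU qW qV κ s) = (EE qU qW qV κ 0 s : ℝ) / 2 ^ s := by
  classical
  induction s with
  | zero =>
    have h0 : EE qU qW qV κ 0 0 = 0 := by
      rw [EE_zero qU qW qV κ (Nat.zero_le _), if_neg (TT'_pos κ).ne]
    have h1 : Of qU qW qV κ 0 = ∅ := by
      rw [Finset.eq_empty_iff_forall_notMem]
      intro q hq
      rw [mem_Of] at hq
      obtain ⟨h1, _, h2⟩ := hq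
      rw [show q.length = 0 by omega, h0] at h2
      omega
    rw [h0, h1]; simp [ms]
  | succ s ih =>
    have h1 : Of qU qW qV κ (s + 1) = Of qU qW qV κ s ∪
        (FS (s + 1)).filter (fun q => 2 * EE qU qW qV κ 0 s ≤ bn q ∧
          bn q < EE qU qW qV κ 0 (s + 1)) := by
      ext q
      rw [Finset.mem_union, mem_Of, mem_Of, Finset.mem_filter, mem_FS]
      constructor
      · rintro ⟨h1, h2⟩
        rcases Nat.lt_or_ge s q.length with h3 | h3
        · have h4 : q.length = s + 1 := by omega
          right
          refine ⟨h4, ?_⟩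
          unfold inD at h2
          rw [h4] at h2
          simpa using h2
        · exact Or.inl ⟨h3, h2⟩
      · rintro (⟨h1, h2⟩ | ⟨h1, h2⟩)
        · exact ⟨by omega, h2⟩
        · refine ⟨by omega, ?_⟩
          unfold inD
          rw [h1]
          simpa using h2
    have hdisj : Disjoint (Of qU qW qV κ s)
        ((FS (s + 1)).filter (fun q => 2 * EE qU qW qV κ 0 s ≤ bn q ∧
          bn q < EE qU qW qV κ 0 (s + 1))) := by
      rw [Finset.disjoint_left]
      intro q h1 h2
      rw [mem_Of] at h1
      rw [Finset.mem_filter, mem_FS] at h2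
      omega
    unfold ms at ih ⊢
    rw [h1, Finset.sum_union hdisj, ih]
    have h2 : ∀ q ∈ (FS (s + 1)).filter (fun q => 2 * EE qU qW qV κ 0 s ≤ bn q ∧
          bn q < EE qU qW qV κ 0 (s + 1)), (1 / 2 : ℝ) ^ q.length = (1 / 2 : ℝ) ^ (s + 1) := by
      intro q hq
      rw [Finset.mem_filter, mem_FS] at hq
      rw [hq.1]
    rw [Finset.sum_congr rfl h2, Finset.sum_const, card_bn (hE (s + 1)), nsmul_eq_mul,
      Nat.cast_sub (EE_grow κ s)]
    push_cast
    rw [one_div, inv_pow, pow_succ]
    field_simp
    ring

end inD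

end Run7.h357.Om
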