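import Mathlib
import Pool.Agent.Run7.h357.OmMach
import Pool.Agent.H561R3.Om.Defs

set_option autoImplicit false

namespace Run7.h357.Om

open Encodable Pool.Agent.Helper227 Pool.Agent.H561R3 Pool.Agent.H561R3.Om MeasureTheory
open Filter Topology

/-- the graph of a partial recursive function is recursively enumerable -/
theorem graph_re {U : Str →. Str} (hU : Partrec U) : REPred fun x : Str × Str => x.2 ∈ U x.1 := by
  have h1 : Partrec fun x : Str × Str => (U x.1).bind fun y =>
      bif decide (y = x.2) then Part.some () else (Part.none : Part Unit) := by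
    refine Partrec.bind (f := fun x : Str × Str => U x.1)
      (g := fun (x : Str × Str) (y : Str) =>
        bif decide (y = x.2) then Part.some () else (Part.none : Part Unit))
      (hU.comp Computable.fst) ?_
    refine Partrec.cond (c := fun z : (Str × Str) × Str => decide (z.2 = z.1.2))
      (f := fun _ => Part.some ()) (g := fun _ => Part.none) ?_ (Computable.const ()).partrec
      Partrec.none
    have h2 : PrimrecPred fun z : (Str × Str) × Str => z.2 = z.1.2 :=
      Primrec.eq.comp Primrec.snd (Primrec.snd.comp Primrec.fst)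
    have := h2.decide
    refine Primrec.to_comp ?_
    convert this
  refine h1.dom_re.of_eq fun x => ?_
  rw [Part.bind_dom]
  constructor
  · rintro ⟨h, h2⟩
    by_cases h3 : (U x.1).get h = x.2
    · rw [← h3]; exact Part.get_mem h
    · simp [h3] at h2
  · intro h
    obtain ⟨h2, h3⟩ := h
    exact ⟨h2, by simp [h3]⟩

theorem randomness {U : Str →. Str} (hpf : PFMachine U)
    (hadj : ∀ N : Str →. Str, PFMachine N → ∃ σ : Str, ∀ p, U (σ ++ p) = N p)
    {X : Set Str} (hX : REPred fun x : Str => x ∉ X) (hpos : 0 < Omega U X) :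
    MLRandomReal (Omega U X) := by
  classical
  intro V hVt
  by_contra hcon
  push Not at hcon
  -- a point of the set
  obtain ⟨x0, hx0⟩ : ∃ x0, x0 ∈ X := by
    by_contra h
    push Not at h
    have h1 : Omega U X = 0 := by
      unfold Omega
      have : ∀ p : List Bool, Set.indicator {p | ∃ x ∈ X, x ∈ U p}
          (fun p => (1 / 2 : ℝ) ^ p.length) p = 0 := by
        intro p
        apply Set.indicator_of_notMem
        rintro ⟨x, hx, _⟩
        exact h x hx
      simp only [this, tsum_zero]
    rw [h1] at hpos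
    exact lt_irrefl _ hpos
  obtain ⟨qU, hqU, hUm, hUe⟩ := S1.of_re (graph_re hpf.1)
  obtain ⟨qW, hqW, hWm, hWe⟩ := S1.of_re hX
  obtain ⟨qV, hqV, hVm, hVe⟩ := S1.of_re hVt.1
  obtain ⟨σ, hσ⟩ := hadj _ (pf_NM hqU hqW hqV x0)
  set κ : Str := σ ++ eta σ with hκ
  have hVs : ∀ c, Vs qV c = V c := by
    intro c
    ext t
    exact (hVe (c, t)).symm
  have hVmeas : ∀ n, volume (openOf (Vs qV n)) ≤ ENNReal.ofReal ((1 / 2 : ℝ) ^ n) := by
    intro n; rw [hVs]; exact hVt.2 n
  -- the domain
  have hdom : ∀ p x s, qU (p, x) s → x ∈ U p := fun p x s h => (hUe (p, x)).2 ⟨s, h⟩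
  have hbd : ∀ s p, bornP qU κ s p → (U p).Dom := by
    rintro s p ⟨_, _, x, _, h⟩
    exact Part.dom_iff_mem.2 ⟨x, hdom p x s h⟩
  have hB1 : ∀ s, ms (Bf qU κ s) ≤ 1 := by
    intro s
    refine kraft _ fun p hp q hq h => ?_
    exact hpf.2 p q (hbd s p (mem_Bf.1 hp)) (hbd s q (mem_Bf.1 hq)) h
  have hG1 : ∀ s, ms (Gf qU qW κ s) ≤ 1 := fun s =>
    (ms_mono (Gf_sub_Bf qU qW κ s)).trans (hB1 s)
  have hinv := inv_all hUm hWm hVmeas hB1 hG1
  have hE : ∀ s, EE qU qW qV κ 0 s ≤ 2 ^ s := by
    intro s
    have h1 := (TR0_lt (hinv s)).le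
    unfold TR at h1
    rw [div_le_iff₀ (by positivity), pow_add] at h1
    have h2 : (1 / 2 : ℝ) ^ κ.length * (2 ^ s * 2 ^ κ.length) = 2 ^ s := by
      rw [one_div, inv_pow]; field_simp
    rw [h2] at h1
    exact_mod_cast h1
  -- own programs
  have hown : ∀ q, U (κ ++ q) = NM qU qW qV x0 (eta σ ++ q) := by
    intro q
    rw [hκ, List.append_assoc, hσ]
  let L : ℕ → Finset Str := fun s => (Bf qU κ s \ Gf qU qW κ s) ∪
    (Of qU qW qV κ s).image (fun q => κ ++ q)
  have hinjκ : Function.Injective (fun q : Str => κ ++ q) := fun a b h =>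
    List.append_cancel_left h
  have hLms : ∀ s, ∑ p ∈ L s, (1 / 2 : ℝ) ^ p.length = vl qU qW qV κ s := by
    intro s
    have hdisj : Disjoint (Bf qU κ s \ Gf qU qW κ s)
        ((Of qU qW qV κ s).image (fun q => κ ++ q)) := by
      rw [Finset.disjoint_left]
      intro p h1 h2
      rw [Finset.mem_image] at h2
      obtain ⟨q, _, rfl⟩ := h2
      rw [Finset.mem_sdiff, mem_Bf] at h1
      exact h1.1.2.1 (List.prefix_append _ _)
    rw [Finset.sum_union hdisj]
    have h1 : ∑ p ∈ Bf qU κ s \ Gf qU qW κ s, (1 / 2 : ℝ) ^ p.length =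
        ms (Bf qU κ s) - ms (Gf qU qW κ s) := ms_sdiff (Gf_sub_Bf qU qW κ s)
    have h2 : ∑ p ∈ (Of qU qW qV κ s).image (fun q => κ ++ q), (1 / 2 : ℝ) ^ p.length =
        (1 / 2 : ℝ) ^ κ.length * ms (Of qU qW qV κ s) := by
      rw [Finset.sum_image (fun a _ b _ h => hinjκ h)]
      unfold ms
      rw [Finset.mul_sum]
      refine Finset.sum_congr rfl fun q _ => ?_
      rw [List.length_append, pow_add]
    rw [h1, h2, ms_Of hE]
    unfold vl TR
    rw [pow_add, one_div, inv_pow]
    field_simp
  have hlim : Tendsto (vl qU qW qV κ) atTop (𝓝 (Omega U X)) := by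
    have h1 := tendsto_live (D := {p | (U p).Dom}) (fun p hp q hq h => hpf.2 p q hp hq h) L
      {p | ∃ x ∈ X, x ∈ U p} ?_ ?_
    · unfold Omega
      refine h1.congr fun s => hLms s
    · intro s p hp
      simp only [L, Finset.mem_union, Finset.mem_image, Finset.mem_sdiff, mem_Bf] at hp
      rcases hp with ⟨hp, _⟩ | ⟨q, hq, rfl⟩
      · exact hbd s p hp
      · rw [mem_Of] at hq
        show (U (κ ++ q)).Dom
        rw [hown, NM_dom, PD_iff]
        exact hq.2
    · intro p
      by_cases hpk : κ <+: p
      · obtain ⟨q, rfl⟩ := hpk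
        filter_upwards [eventually_ge_atTop q.length] with s hs
        simp only [L, Finset.mem_union, Finset.mem_image, Finset.mem_sdiff, mem_Bf,
          Set.mem_setOf_eq]
        rw [hown]
        constructor
        · rintro (⟨hp, _⟩ | ⟨q', hq, h⟩)
          · exact absurd (List.prefix_append _ _) hp.2.1
          · have h2 : q' = q := hinjκ h
            subst h2
            rw [mem_Of] at hq
            exact ⟨x0, hx0, mem_NM.2 ⟨PD_iff.2 hq.2, rfl⟩⟩
        · rintro ⟨x, _, hx⟩
          right
          refine ⟨q, mem_Of.2 ⟨hs, ?_⟩, rfl⟩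
          exact PD_iff.1 (mem_NM.1 hx).1
      · have hnim : ∀ s, p ∉ (Of qU qW qV κ s).image (fun q => κ ++ q) := by
          intro s h
          rw [Finset.mem_image] at h
          obtain ⟨q, _, rfl⟩ := h
          exact hpk (List.prefix_append _ _)
        have hLs : ∀ s, p ∈ L s ↔ bornP qU κ s p ∧ ¬ goneP qU qW κ s p := by
          intro s
          simp only [L, Finset.mem_union, Finset.mem_sdiff, mem_Bf, mem_Gf]
          constructor
          · rintro (h | h)
            · exact h
            · exact absurd h (hnim s)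
          · exact fun h => Or.inl h
        by_cases hdp : ∃ x, x ∈ U p
        · obtain ⟨x, hx⟩ := hdp
          obtain ⟨s0, hs0⟩ := (hUe (p, x)).1 hx
          by_cases hxX : x ∈ X
          · filter_upwards [eventually_ge_atTop (max s0 (max p.length (encode x + 1)))] with s hs
            simp only [max_le_iff] at hs
            rw [hLs]
            constructor
            · intro _
              exact ⟨x, hxX, hx⟩
            · intro _
              refine ⟨⟨hs.2.1, hpk, x, mem_cand_of_encode (by omega), hUm _ _ _ hs.1 hs0⟩, ?_⟩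
              rintro ⟨_, y, _, hy1, hy2⟩
              have h3 : y = x := Part.mem_unique (hdom p y s hy1) hx
              subst h3
              exact (hWe y).2 ⟨s, hy2⟩ hxX
          · obtain ⟨s1, hs1⟩ := (hWe x).1 hxX
            filter_upwards [eventually_ge_atTop (max s1 (max s0 (max p.length (encode x + 1))))]
              with s hs
            simp only [max_le_iff] at hs
            rw [hLs]
            constructor
            · rintro ⟨h3, h4⟩
              exact absurd ⟨h3, x, mem_cand_of_encode (by omega), hUm _ _ _ hs.2.1 hs0,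
                hWm _ _ _ hs.1 hs1⟩ h4
            · rintro ⟨y, hy, hy2⟩
              have h3 : y = x := Part.mem_unique hy2 hx
              subst h3
              exact absurd hy hxX
        · refine Eventually.of_forall fun s => ?_
          rw [hLs]
          constructor
          · rintro ⟨h3, _⟩
            exact absurd (Part.dom_iff_mem.1 (hbd s p h3)) hdp
          · rintro ⟨y, _, hy2⟩
            exact absurd ⟨y, hy2⟩ hdp
  exact not_all_mem hinv hVm hlim fun c => by rw [hVs]; exact hcon c

end Run7.h357.Om
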